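import Mathlib

/-!
Definitions for Steiner trees in Euclidean space and the two extremal quantities.
-/

open MeasureTheory Metric Set
open scoped ENNReal

namespace Pool.Agent.Lib.MP_8790b5_co

/-- `S` is a Steiner tree for `A` in Euclidean `d`-space: a closed connected set containing `A`,
of finite one-dimensional Hausdorff measure, minimising that measure among all closed connected
sets containing `A`. -/
def IsSteinerTree {d : ℕ} (A S : Set (EuclideanSpace ℝ (Fin d))) : Prop :=
  IsClosed S ∧ IsConnected S ∧ A ⊆ S ∧ μH[1] S < ∞ ∧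
    ∀ S' : Set (EuclideanSpace ℝ (Fin d)),
      IsClosed S' → IsConnected S' → A ⊆ S' → μH[1] S ≤ μH[1] S'

/-- `p` is a branching point of `S` (terminals `A`): `p ∈ S \ A` and in some neighbourhood `U`
of `p` the set `S` is a union of finitely many, at least three, nondegenerate segments
`[p, q]` (`q ∈ Q`) which pairwise meet only in `p`. -/
def IsBranchingPoint {d : ℕ} (A S : Set (EuclideanSpace ℝ (Fin d)))
    (p : EuclideanSpace ℝ (Fin d)) : Prop :=
  p ∈ S ∧ p ∉ A ∧ ∃ U ∈ nhds p, ∃ Q : Finset (EuclideanSpace ℝ (Fin d)),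
    3 ≤ Q.card ∧ (∀ q ∈ Q, q ≠ p) ∧
    (∀ q ∈ Q, ∀ q' ∈ Q, q ≠ q' → segment ℝ p q ∩ segment ℝ p q' = {p}) ∧
    S ∩ U = (⋃ q ∈ Q, segment ℝ p q) ∩ U

/-- `L_d`: supremum of `H^1(S ∩ B_r(x)) / r` over compact `A`, Steiner trees `S` for `A` and
open balls `B_r(x)` containing no point of `A`. -/
noncomputable def steinerBallLength (d : ℕ) : ℝ≥0∞ :=
  ⨆ (A : Set (EuclideanSpace ℝ (Fin d))) (S : Set (EuclideanSpace ℝ (Fin d)))
    (x : EuclideanSpace ℝ (Fin d)) (r : ℝ) (_ : IsCompact A) (_ : IsSteinerTree A S)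
    (_ : 0 < r) (_ : A ∩ ball x r = ∅), μH[1] (S ∩ ball x r) / ENNReal.ofReal r

/-- `N_d`: supremum of the number of branching points of `S` in `B_r(x)` over compact `A`,
Steiner trees `S` for `A` and open balls `B_r(x)` containing no point of `A`. -/
noncomputable def steinerBallBranching (d : ℕ) : ℕ∞ :=
  ⨆ (A : Set (EuclideanSpace ℝ (Fin d))) (S : Set (EuclideanSpace ℝ (Fin d)))
    (x : EuclideanSpace ℝ (Fin d)) (r : ℝ) (_ : IsCompact A) (_ : IsSteinerTree A S)
    (_ : 0 < r) (_ : A ∩ ball x r = ∅), {p ∈ ball x r | IsBranchingPoint A S p}.encard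

end Pool.Agent.Lib.MP_8790b5_co
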