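import Mathlib
import Pool.Agent.Lib.MP_8790b5_co.Defs

-- part Pool.Agent.Lib.MP_8790b5_co.Basic
section

open MeasureTheory Metric Set
open scoped ENNReal NNReal

namespace Pool.Agent.Lib.MP_8790b5_co

section General

variable {X : Type} [MetricSpace X] [MeasurableSpace X] [BorelSpace X]

theorem vol_le_of_lip {K : ℝ≥0} {f : X → ℝ} {T : Set X} (hf : LipschitzOnWith K f T)
    {I : Set ℝ} (hI : I ⊆ f '' T) : volume I ≤ K * μH[1] T := by
  have h := hf.hausdorffMeasure_image_le (d := 1) zero_le_one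
  rw [hausdorffMeasure_real, ENNReal.rpow_one] at h
  exact (measure_mono hI).trans h

theorem radial_le {S : Set X} (hS : IsPreconnected S) {a b : X} (ha : a ∈ S) (hb : b ∈ S)
    {ρ : ℝ} (hρ : ρ ≤ dist b a) : ENNReal.ofReal ρ ≤ μH[1] (S ∩ ball a ρ) := by
  have hl : LipschitzOnWith 1 (fun x => dist x a) (S ∩ ball a ρ) :=
    (LipschitzWith.dist_left a).lipschitzOnWith
  have hI : Ico 0 ρ ⊆ (fun x => dist x a) '' (S ∩ ball a ρ) := by
    intro t ht
    have h2 := hS.intermediate_value ha hb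
      (f := fun x => dist x a) (by fun_prop)
    have : t ∈ Icc (dist a a) (dist b a) := by
      rw [dist_self]; exact ⟨ht.1, ht.2.le.trans hρ⟩
    obtain ⟨x, hx, hxt⟩ := h2 this
    refine ⟨x, ⟨hx, ?_⟩, hxt⟩
    rw [mem_ball]
    have : dist x a = t := hxt
    rw [this]; exact ht.2
  have := vol_le_of_lip hl hI
  simpa using this

theorem dist_le_of_preconnected {S : Set X} (hS : IsPreconnected S) {a b : X} (ha : a ∈ S)
    (hb : b ∈ S) : ENNReal.ofReal (dist b a) ≤ μH[1] S :=
  (radial_le hS ha hb le_rfl).trans (measure_mono inter_subset_left)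

theorem isBounded_of_preconnected {S : Set X} (hS : IsPreconnected S) (hfin : μH[1] S < ∞) :
    Bornology.IsBounded S := by
  rcases S.eq_empty_or_nonempty with rfl | ⟨a, ha⟩
  · exact Bornology.isBounded_empty
  refine (isBounded_closedBall (x := a) (r := (μH[1] S).toReal)).subset ?_
  intro b hb
  rw [mem_closedBall]
  exact (ENNReal.ofReal_le_iff_le_toReal hfin.ne).1 (dist_le_of_preconnected hS ha hb)

/-- Open covers with small total diameter. -/
theorem exists_open_cover {S : Set X} {c δ : ℝ} (hδ : 0 < δ)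
    (hc : μH[1] S < ENNReal.ofReal c) :
    ∃ (U : ℕ → Set X) (w : ℕ → ℝ), (∀ n, IsOpen (U n)) ∧ S ⊆ ⋃ n, U n ∧
      (∀ n, ∀ x ∈ U n, ∀ y ∈ U n, dist x y ≤ w n) ∧ (∀ n, 0 ≤ w n) ∧ (∀ n, w n ≤ δ) ∧
      ∀ J : Finset ℕ, ∑ n ∈ J, w n ≤ c := by
  have hr : (0 : ℝ≥0∞) < ENNReal.ofReal (δ / 3) := by
    rw [ENNReal.ofReal_pos]; positivity
  have h1 : (⨅ (t : ℕ → Set X) (_ : S ⊆ ⋃ n, t n) (_ : ∀ n, ediam (t n) ≤ ENNReal.ofReal (δ / 3)),
          ∑' n, ⨆ _ : (t n).Nonempty, ediam (t n) ^ (1 : ℝ)) < ENNReal.ofReal c := by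
    refine lt_of_le_of_lt ?_ hc
    rw [Measure.hausdorffMeasure_apply]
    exact le_iSup₂_of_le (ENNReal.ofReal (δ / 3)) hr le_rfl
  simp only [iInf_lt_iff] at h1
  obtain ⟨t, hcov, hdiam, hsum⟩ := h1
  have hsum' : ∑' n, ediam (t n) < ENNReal.ofReal c := by
    refine lt_of_le_of_lt (ENNReal.tsum_le_tsum fun n => ?_) hsum
    rcases (t n).eq_empty_or_nonempty with h | h
    · simp [h]
    · simp [h]
  obtain ⟨ε, hε0, hε⟩ := ENNReal.lt_iff_exists_add_pos_lt.1 hsum'
  obtain ⟨ε', hε'0, hε'⟩ := ENNReal.exists_pos_sum_of_countable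
    (ε := (ε : ℝ≥0∞)) (by exact_mod_cast hε0.ne') ℕ
  have hfin : ∀ n, ediam (t n) ≠ ∞ := fun n =>
    ne_top_of_le_ne_top ENNReal.ofReal_ne_top (hdiam n)
  set η : ℕ → ℝ := fun n => min ((ε' n : ℝ) / 2) (δ / 3) with hη
  have hη0 : ∀ n, 0 < η n := fun n => by
    have : (0 : ℝ) < ε' n := by exact_mod_cast hε'0 n
    simp only [hη, lt_min_iff]; constructor <;> positivity
  refine ⟨fun n => thickening (η n) (t n), fun n => (ediam (t n)).toReal + 2 * η n,
    fun n => isOpen_thickening, ?_, ?_, ?_, ?_, ?_⟩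
  · exact hcov.trans (iUnion_mono fun n => self_subset_thickening (hη0 n) _)
  · intro n x hx y hy
    rw [mem_thickening_iff] at hx hy
    obtain ⟨x', hx', hxx⟩ := hx
    obtain ⟨y', hy', hyy⟩ := hy
    have h3 : dist x' y' ≤ (ediam (t n)).toReal := by
      have := edist_le_ediam_of_mem hx' hy'
      rw [edist_dist] at this
      exact (ENNReal.ofReal_le_iff_le_toReal (hfin n)).1 this
    have h4 := dist_triangle4 x x' y' y
    rw [dist_comm y' y] at h4
    linarith
  · intro n
    have := hη0 n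
    positivity
  · intro n
    have h3 : (ediam (t n)).toReal ≤ δ / 3 :=
      ENNReal.toReal_le_of_le_ofReal (by positivity) (hdiam n)
    have h4 : η n ≤ δ / 3 := min_le_right _ _
    linarith
  · intro J
    have hc0 : 0 ≤ c := by
      by_contra h
      push Not at h
      rw [ENNReal.ofReal_of_nonpos h.le] at hc
      exact absurd hc (not_lt.2 zero_le)
    have h5 : ∀ n, ENNReal.ofReal ((ediam (t n)).toReal + 2 * η n) ≤ ediam (t n) + ε' n := by
      intro n
      refine ENNReal.ofReal_add_le.trans ?_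
      rw [ENNReal.ofReal_toReal (hfin n)]
      gcongr
      have h4 : η n ≤ (ε' n : ℝ) / 2 := min_le_left _ _
      rw [← ENNReal.ofReal_coe_nnreal]
      exact ENNReal.ofReal_le_ofReal (by linarith)
    rw [← ENNReal.ofReal_le_ofReal_iff hc0,
      ENNReal.ofReal_sum_of_nonneg (fun n _ => by have := hη0 n; positivity)]
    calc ∑ n ∈ J, ENNReal.ofReal ((ediam (t n)).toReal + 2 * η n)
        ≤ ∑ n ∈ J, (ediam (t n) + ε' n) := Finset.sum_le_sum fun n _ => h5 n
      _ ≤ ∑' n, (ediam (t n) + ε' n) := ENNReal.sum_le_tsum _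
      _ = ∑' n, ediam (t n) + ∑' n, (ε' n : ℝ≥0∞) := ENNReal.tsum_add
      _ ≤ ∑' n, ediam (t n) + ε := by gcongr
      _ ≤ ENNReal.ofReal c := hε.le

end General

section Proj

variable {E : Type} [NormedAddCommGroup E] [InnerProductSpace ℝ E]

/-- Nearest point retraction onto the closed unit ball. -/
noncomputable def proj (x : E) : E := (max 1 ‖x‖)⁻¹ • x

theorem proj_of_le {x : E} (hx : ‖x‖ ≤ 1) : proj x = x := by
  simp [proj, max_eq_left hx]

theorem norm_proj_le (x : E) : ‖proj x‖ ≤ 1 := by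
  have h : 0 < max 1 ‖x‖ := lt_max_of_lt_left one_pos
  rw [proj, norm_smul, norm_inv, Real.norm_of_nonneg h.le, inv_mul_le_iff₀ h, mul_one]
  exact le_max_right _ _

theorem proj_aux {x y : E} {s t : ℝ} (hs : 1 ≤ s) (ht : 1 ≤ t) (hx : ‖x‖ ≤ 1) (hy : ‖y‖ ≤ 1)
    (hsx : s = 1 ∨ ‖x‖ = 1) (hty : t = 1 ∨ ‖y‖ = 1) :
    ‖x - y‖ ≤ ‖s • x - t • y‖ := by
  have h1 : inner ℝ x y ≤ ‖x‖ * ‖y‖ := real_inner_le_norm x y
  have hx0 := norm_nonneg x
  have hy0 := norm_nonneg y
  rw [← sq_le_sq₀ (norm_nonneg _) (norm_nonneg _), norm_sub_sq_real, norm_sub_sq_real,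
    norm_smul, norm_smul, real_inner_smul_left, real_inner_smul_right,
    Real.norm_of_nonneg (by linarith : (0 : ℝ) ≤ s),
    Real.norm_of_nonneg (by linarith : (0 : ℝ) ≤ t)]
  set c := inner ℝ x y
  rcases hsx with rfl | hx1 <;> rcases hty with rfl | hy1
  · simp
  · rw [hy1] at h1 ⊢
    nlinarith [mul_nonneg (sub_nonneg.2 ht) (by linarith : 0 ≤ t + 1 - 2 * c)]
  · rw [hx1] at h1 ⊢
    nlinarith [mul_nonneg (sub_nonneg.2 hs) (by linarith : 0 ≤ s + 1 - 2 * c)]
  · rw [hx1, hy1] at h1
    rw [hx1, hy1]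
    have h2 : 0 ≤ s * t - 1 := by nlinarith
    nlinarith [mul_nonneg h2 (by linarith : 0 ≤ 1 - c), sq_nonneg (s - t)]

theorem proj_cases (x : E) : max 1 ‖x‖ = 1 ∨ ‖proj x‖ = 1 := by
  rcases le_total ‖x‖ 1 with h | h
  · left; exact max_eq_left h
  · right
    have h0 : ‖x‖ ≠ 0 := by linarith
    rw [proj, max_eq_right h, norm_smul, norm_inv, norm_norm, inv_mul_cancel₀ h0]

theorem smul_proj (x : E) : (max 1 ‖x‖) • proj x = x := by
  have h : 0 < max 1 ‖x‖ := lt_max_of_lt_left one_pos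
  rw [proj, smul_smul, mul_inv_cancel₀ h.ne', one_smul]

theorem lipschitz_proj : LipschitzWith 1 (proj : E → E) := by
  refine LipschitzWith.of_dist_le_mul fun x y => ?_
  rw [NNReal.coe_one, one_mul, dist_eq_norm, dist_eq_norm]
  have := proj_aux (le_max_left 1 ‖x‖) (le_max_left 1 ‖y‖) (norm_proj_le x) (norm_proj_le y)
    (proj_cases x) (proj_cases y)
  rwa [smul_proj, smul_proj] at this

end Proj

end Pool.Agent.Lib.MP_8790b5_co
end

-- part Pool.Agent.Lib.MP_8790b5_co.Nets
section

open MeasureTheory Metric Set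
open scoped ENNReal NNReal

namespace Pool.Agent.Lib.MP_8790b5_co

/-- Rooted binary trees with positions. -/
inductive Tr (E : Type) : Type
  | leaf : E → Tr E
  | node : E → Tr E → Tr E → Tr E

namespace Tr

variable {E : Type}

def leaves : Tr E → Multiset E
  | leaf a => {a}
  | node _ l r => l.leaves + r.leaves

def inK (K : Set E) : Tr E → Prop
  | leaf _ => True
  | node u l r => u ∈ K ∧ l.inK K ∧ r.inK K

def edges : E → Tr E → Multiset (E × E)
  | v, leaf a => {(v, a)}
  | v, node u l r => (v, u) ::ₘ (edges u l + edges u r)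

theorem leaves_ne_zero (t : Tr E) : t.leaves ≠ 0 := by
  induction t with
  | leaf a => simp [leaves]
  | node u l r ihl ihr => simp [leaves, ihl]

end Tr

section

variable {E : Type} [MetricSpace E]

noncomputable def len (M : Multiset (E × E)) : ℝ := (M.map fun e => dist e.1 e.2).sum

@[simp] theorem len_zero : len (0 : Multiset (E × E)) = 0 := by simp [len]
@[simp] theorem len_cons (e : E × E) (M : Multiset (E × E)) :
    len (e ::ₘ M) = dist e.1 e.2 + len M := by simp [len]
@[simp] theorem len_add (M N : Multiset (E × E)) : len (M + N) = len M + len N := by simp [len]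
@[simp] theorem len_singleton (e : E × E) : len ({e} : Multiset (E × E)) = dist e.1 e.2 := by
  simp [len]

theorem len_nonneg (M : Multiset (E × E)) : 0 ≤ len M := by
  induction M using Multiset.induction_on with
  | empty => simp
  | cons e M ih => rw [len_cons]; positivity

def Net (K : Set E) (A : Multiset E) (v : E) (L : ℝ) : Prop :=
  ∃ t : Tr E, t.leaves = A ∧ t.inK K ∧ len (t.edges v) ≤ L

variable {K : Set E}

theorem Net.mono {A : Multiset E} {v : E} {L L' : ℝ} (h : Net K A v L) (hL : L ≤ L') :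
    Net K A v L' := by
  obtain ⟨t, h1, h2, h3⟩ := h
  exact ⟨t, h1, h2, h3.trans hL⟩

theorem Net.nonneg {A : Multiset E} {v : E} {L : ℝ} (h : Net K A v L) : 0 ≤ L := by
  obtain ⟨t, -, -, h3⟩ := h
  exact (len_nonneg _).trans h3

theorem Net.ne_zero {A : Multiset E} {v : E} {L : ℝ} (h : Net K A v L) : A ≠ 0 := by
  obtain ⟨t, rfl, -, -⟩ := h
  exact t.leaves_ne_zero

theorem net_leaf (a v : E) : Net K {a} v (dist v a) :=
  ⟨Tr.leaf a, rfl, trivial, by simp [Tr.edges]⟩

theorem Net.join {A B : Multiset E} {u : E} {L L' : ℝ} (hA : Net K A u L) (hB : Net K B u L')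
    (hu : u ∈ K) (v : E) : Net K (A + B) v (dist v u + L + L') := by
  obtain ⟨t, h1, h2, h3⟩ := hA
  obtain ⟨t', h1', h2', h3'⟩ := hB
  refine ⟨Tr.node u t t', by simp [Tr.leaves, h1, h1'], ⟨hu, h2, h2'⟩, ?_⟩
  simp only [Tr.edges, len_cons, len_add]
  linarith

theorem Net.move_root {A : Multiset E} {v : E} {L : ℝ} (h : Net K A v L) (v' : E) :
    Net K A v' (L + dist v' v) := by
  obtain ⟨t, h1, h2, h3⟩ := h
  refine ⟨t, h1, h2, ?_⟩
  cases t with
  | leaf a =>
    simp only [Tr.edges, len_singleton] at h3 ⊢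
    linarith [dist_triangle v' v a]
  | node u l r =>
    simp only [Tr.edges, len_cons, len_add] at h3 ⊢
    linarith [dist_triangle v' v u]

/-- Replacing one leaf `y` by a whole net rooted at `y`. -/
theorem graft (t : Tr E) : ∀ (v y : E) (A C : Multiset E) (D : ℝ), t.leaves = y ::ₘ A →
    t.inK K → Net K C y D → Net K (C + A) v (len (t.edges v) + D) := by
  induction t with
  | leaf a =>
    intro v y A C D h _ hC
    simp only [Tr.leaves] at h
    have h' : a = y ∧ A = 0 := by
      rw [← Multiset.cons_zero] at h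
      have hc := congrArg Multiset.card h
      have hA : A = 0 := by simpa using hc
      subst hA
      exact ⟨by simpa using h, rfl⟩
    obtain ⟨rfl, rfl⟩ := h'
    simp only [Tr.edges, len_singleton, add_zero]
    exact (hC.move_root v).mono (by linarith)
  | node u l r ihl ihr =>
    intro v y A C D h hK hC
    simp only [Tr.leaves] at h
    obtain ⟨hu, hl, hr⟩ := hK
    have hy : y ∈ l.leaves + r.leaves := by rw [h]; simp
    rcases Multiset.mem_add.1 hy with hy | hy
    · obtain ⟨A', hA'⟩ := Multiset.exists_cons_of_mem hy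
      have hA : A = A' + r.leaves := by
        rw [hA', Multiset.cons_add] at h
        exact ((Multiset.cons_inj_right y).1 h).symm
      have h1 := ihl u y A' C D hA' hl hC
      have h2 : Net K r.leaves u (len (r.edges u)) := ⟨r, rfl, hr, le_rfl⟩
      have h3 := h1.join h2 hu v
      rw [hA, ← add_assoc]
      refine h3.mono ?_
      simp only [Tr.edges, len_cons, len_add]
      linarith
    · obtain ⟨A', hA'⟩ := Multiset.exists_cons_of_mem hy
      have hA : A = l.leaves + A' := by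
        rw [hA', Multiset.add_cons] at h
        exact ((Multiset.cons_inj_right y).1 h).symm
      have h1 := ihr u y A' C D hA' hr hC
      have h2 : Net K l.leaves u (len (l.edges u)) := ⟨l, rfl, hl, le_rfl⟩
      have h3 := h2.join h1 hu v
      have : C + A = l.leaves + (C + A') := by rw [hA]; abel
      rw [this]
      refine h3.mono ?_
      simp only [Tr.edges, len_cons, len_add]
      linarith

theorem Net.graft {y v : E} {A C : Multiset E} {L D : ℝ} (h : Net K (y ::ₘ A) v L)
    (hC : Net K C y D) : Net K (C + A) v (L + D) := by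
  obtain ⟨t, h1, h2, h3⟩ := h
  exact (MP_8790b5_co.graft t v y A C D h1 h2 hC).mono (by linarith)

theorem net_star {y : E} (hy : y ∈ K) {D : ℝ} (C : Multiset E) (hC : C ≠ 0)
    (hD : ∀ c ∈ C, dist y c ≤ D) : Net K C y (C.card * D) := by
  induction C using Multiset.induction_on with
  | empty => exact absurd rfl hC
  | cons c C ih =>
    by_cases h0 : C = 0
    · subst h0
      simpa using (net_leaf c y).mono (hD c (by simp))
    · have h1 := ih h0 (fun c' hc' => hD c' (by simp [hc']))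
      have h2 := ((net_leaf (K := K) c y).mono (hD c (by simp))).join h1 hy y
      rw [Multiset.singleton_add] at h2
      refine h2.mono ?_
      simp only [dist_self, Multiset.card_cons]
      push_cast
      linarith

theorem exists_net {y : E} (hy : y ∈ K) (A : Multiset E) (hA : A ≠ 0) (v : E) :
    ∃ L, Net K A v L := by
  have hD : ∀ c ∈ A, dist y c ≤ (A.map fun c => dist y c).sum := fun c hc =>
    Multiset.single_le_sum (by
      intro x hx
      obtain ⟨c', -, rfl⟩ := Multiset.mem_map.1 hx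
      exact dist_nonneg) _ (Multiset.mem_map_of_mem _ hc)
  exact ⟨_, (net_star hy A hA hD).move_root v⟩

noncomputable def F (K : Set E) (A : Multiset E) (v : E) : ℝ := sInf {L | Net K A v L}

theorem F_le {A : Multiset E} {v : E} {L : ℝ} (h : Net K A v L) : F K A v ≤ L :=
  csInf_le ⟨0, fun _ h' => h'.nonneg⟩ h

theorem le_F {y : E} (hy : y ∈ K) {A : Multiset E} (hA : A ≠ 0) {v : E} {c : ℝ}
    (h : ∀ L, Net K A v L → c ≤ L) : c ≤ F K A v :=
  le_csInf (exists_net hy A hA v) h

theorem continuous_F {y : E} (hy : y ∈ K) {A : Multiset E} (hA : A ≠ 0) :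
    Continuous (F K A) := by
  refine (LipschitzWith.of_le_add fun v v' => ?_).continuous
  have : F K A v - dist v v' ≤ F K A v' :=
    le_F hy hA fun L hL => by linarith [F_le (hL.move_root v)]
  linarith

theorem net_F (hK : IsCompact K) (hne : K.Nonempty) (n : ℕ) :
    ∀ A : Multiset E, A.card = n → A ≠ 0 → ∀ v, Net K A v (F K A v) := by
  classical
  obtain ⟨y, hy⟩ := hne
  induction n using Nat.strong_induction_on with
  | _ n ih =>
  intro A hn hA v
  by_cases h1 : A.card = 1
  · obtain ⟨a, rfl⟩ := Multiset.card_eq_one.1 h1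
    refine (net_leaf a v).mono (le_F hy hA ?_)
    rintro L ⟨t, h1, h2, h3⟩
    cases t with
    | leaf b =>
      simp only [Tr.leaves, Multiset.singleton_inj] at h1
      subst h1
      simpa [Tr.edges] using h3
    | node u l r =>
      exfalso
      have hc := congrArg Multiset.card h1
      simp only [Tr.leaves, Multiset.card_add, Multiset.card_singleton] at hc
      have := Multiset.card_pos.2 l.leaves_ne_zero
      have := Multiset.card_pos.2 r.leaves_ne_zero
      omega
  · set P : Finset (Multiset E × Multiset E) :=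
      A.antidiagonal.toFinset.filter fun p => p.1 ≠ 0 ∧ p.2 ≠ 0 with hP
    have hmem : ∀ p, p ∈ P ↔ p.1 + p.2 = A ∧ p.1 ≠ 0 ∧ p.2 ≠ 0 := by
      intro p
      simp [hP, Multiset.mem_antidiagonal]
    have hPne : P.Nonempty := by
      obtain ⟨a, ha⟩ := Multiset.exists_mem_of_ne_zero hA
      obtain ⟨A', rfl⟩ := Multiset.exists_cons_of_mem ha
      refine ⟨({a}, A'), (hmem _).2 ⟨by simp, by simp, ?_⟩⟩
      rintro (rfl : A' = 0)
      simp at h1
    have hmin : ∀ p ∈ P, ∃ u ∈ K, ∀ u' ∈ K, dist v u + F K p.1 u + F K p.2 u ≤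
        dist v u' + F K p.1 u' + F K p.2 u' := by
      intro p hp
      obtain ⟨-, hp1, hp2⟩ := (hmem p).1 hp
      have hc : Continuous fun u => dist v u + F K p.1 u + F K p.2 u := by
        have := continuous_F hy hp1
        have := continuous_F hy hp2
        fun_prop
      obtain ⟨u, hu, hu'⟩ := hK.exists_isMinOn ⟨y, hy⟩ hc.continuousOn
      exact ⟨u, hu, fun u' hu'' => hu' hu''⟩
    have : Nonempty E := ⟨y⟩
    choose! g hgK hg using hmin
    obtain ⟨p, hp, hpmin⟩ := P.exists_min_image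
      (fun p => dist v (g p) + F K p.1 (g p) + F K p.2 (g p)) hPne
    obtain ⟨hp0, hp1, hp2⟩ := (hmem p).1 hp
    have hc : p.1.card + p.2.card = n := by rw [← hn, ← hp0, Multiset.card_add]
    have := Multiset.card_pos.2 hp1
    have := Multiset.card_pos.2 hp2
    have n1 := ih p.1.card (by omega) p.1 rfl hp1 (g p)
    have n2 := ih p.2.card (by omega) p.2 rfl hp2 (g p)
    have n3 := n1.join n2 (hgK p hp) v
    rw [hp0] at n3
    refine n3.mono (le_F hy hA ?_)
    rintro L ⟨t, h1', h2, h3⟩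
    cases t with
    | leaf b =>
      exfalso
      apply h1
      rw [← h1']; simp [Tr.leaves]
    | node u l r =>
      have hq : (l.leaves, r.leaves) ∈ P :=
        (hmem _).2 ⟨h1', l.leaves_ne_zero, r.leaves_ne_zero⟩
      obtain ⟨hu, hl, hr⟩ := h2
      have e1 := hpmin _ hq
      have e2 := hg _ hq u hu
      have e3 : F K l.leaves u ≤ len (l.edges u) := F_le ⟨l, rfl, hl, le_rfl⟩
      have e4 : F K r.leaves u ≤ len (r.edges u) := F_le ⟨r, rfl, hr, le_rfl⟩
      simp only [Tr.edges, len_cons, len_add] at h3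
      simp only at e1 e2
      linarith

inductive Chain (U : ℕ → Set E) (S : Set E) (i0 : ℕ) : Finset ℕ → Prop
  | base : Chain U S i0 {i0}
  | step {J : Finset ℕ} {j i : ℕ} : Chain U S i0 J → j ∉ J → i ∈ J →
      (S ∩ (U j ∩ U i)).Nonempty → Chain U S i0 (insert j J)

omit [MetricSpace E] in
theorem Chain.mem {U : ℕ → Set E} {S : Set E} {i0 : ℕ} {J : Finset ℕ} (h : Chain U S i0 J) :
    i0 ∈ J := by
  induction h with
  | base => simp
  | step _ _ _ _ ih => simp [ih]

theorem chain_net {U : ℕ → Set E} {S : Set E} {i0 : ℕ} {w : ℕ → ℝ} {δ : ℝ} {v : E}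
    (hSK : S ⊆ K) (hv : v ∈ K) (hvU : v ∈ U i0)
    (hw : ∀ n, ∀ x ∈ U n, ∀ y ∈ U n, dist x y ≤ w n) (hw0 : ∀ n, 0 ≤ w n) (hwδ : ∀ n, w n ≤ δ)
    {J : Finset ℕ} (h : Chain U S i0 J) : ∀ A : Multiset E, A ≠ 0 → (∀ a ∈ A, ∃ i ∈ J, a ∈ U i) →
      Net K A v (∑ i ∈ J, w i + 2 * A.card * δ) := by
  classical
  have hδ : 0 ≤ δ := (hw0 0).trans (hwδ 0)
  induction h with
  | base =>
    intro A hA hAU
    have := net_star hv (D := δ) A hA (fun c hc => by
      obtain ⟨i, hi, hc'⟩ := hAU c hc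
      rw [Finset.mem_singleton] at hi
      subst hi
      exact (hw _ _ hvU _ hc').trans (hwδ _))
    refine this.mono ?_
    have h1 : 0 ≤ (A.card : ℝ) * δ := by positivity
    have := hw0 i0
    simp only [Finset.sum_singleton]
    linarith
  | @step J j i hJ hj hi hne ih =>
    intro A hA hAU
    rw [Finset.sum_insert hj]
    obtain ⟨y, hyS, hyj, hyi⟩ := hne
    set p : E → Prop := fun a => ∃ i ∈ J, a ∈ U i with hp
    set C := A.filter (fun a => ¬ p a) with hC
    set A' := A.filter p with hA'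
    have hsplit : C + A' = A := by
      rw [add_comm]; exact Multiset.filter_add_not p A
    have hCj : ∀ c ∈ C, c ∈ U j := by
      intro c hc
      rw [hC, Multiset.mem_filter] at hc
      obtain ⟨k, hk, hck⟩ := hAU c hc.1
      rcases Finset.mem_insert.1 hk with rfl | hk
      · exact hck
      · exact absurd ⟨k, hk, hck⟩ hc.2
    have hA'J : ∀ a ∈ A', ∃ i ∈ J, a ∈ U i := fun a ha => (Multiset.mem_filter.1 ha).2
    by_cases hC0 : C = 0
    · rw [hC0, zero_add] at hsplit
      refine (ih A hA (by rw [← hsplit]; exact hA'J)).mono ?_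
      linarith [hw0 j]
    · have h1 := ih (y ::ₘ A') (by simp) (by
        intro a ha
        rcases Multiset.mem_cons.1 ha with rfl | ha
        · exact ⟨i, hi, hyi⟩
        · exact hA'J a ha)
      have hcard : (A.card : ℝ) = C.card + A'.card := by
        rw [← hsplit, Multiset.card_add]; push_cast; ring
      by_cases hC1 : C.card = 1
      · have h2 := net_star (hSK hyS) (D := w j) C hC0 (fun c hc => hw _ _ hyj _ (hCj c hc))
        have h3 := h1.graft h2
        rw [hsplit] at h3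
        refine h3.mono ?_
        rw [hcard, hC1, Multiset.card_cons]
        push_cast
        linarith
      · have h2 := net_star (hSK hyS) (D := δ) C hC0
          (fun c hc => (hw _ _ hyj _ (hCj c hc)).trans (hwδ _))
        have h3 := h1.graft h2
        rw [hsplit] at h3
        refine h3.mono ?_
        have hC2 : (2 : ℝ) ≤ C.card := by
          have := Multiset.card_pos.2 hC0
          have : 2 ≤ C.card := by omega
          exact_mod_cast this
        rw [hcard, Multiset.card_cons]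
        push_cast
        nlinarith [hw0 j, mul_nonneg (sub_nonneg.2 hC2) hδ]

theorem exists_chain {U : ℕ → Set E} {S : Set E} (hS : IsCompact S) (hS' : IsPreconnected S)
    (hU : ∀ n, IsOpen (U n)) (hcov : S ⊆ ⋃ n, U n) {v : E} (hv : v ∈ S) :
    ∃ i0 J, v ∈ U i0 ∧ Chain U S i0 J ∧ ∀ x ∈ S, ∃ i ∈ J, x ∈ U i := by
  classical
  obtain ⟨I, hI⟩ := hS.elim_finite_subcover U hU hcov
  obtain ⟨i0, hi0I, hi0⟩ : ∃ i0 ∈ I, v ∈ U i0 := by simpa using hI hv
  obtain ⟨J, hJ, hJmax⟩ := (I.powerset.filter (Chain U S i0)).exists_max_image Finset.card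
    ⟨{i0}, by simp [hi0I, Chain.base]⟩
  simp only [Finset.mem_filter, Finset.mem_powerset] at hJ hJmax
  refine ⟨i0, J, hi0, hJ.2, ?_⟩
  by_contra hcon
  push Not at hcon
  obtain ⟨x, hxS, hx⟩ := hcon
  have h1 := hS' (⋃ i ∈ J, U i) (⋃ i ∈ I \ J, U i)
    (isOpen_biUnion fun i _ => hU i) (isOpen_biUnion fun i _ => hU i) (by
      intro z hz
      obtain ⟨k, hk, hzk⟩ : ∃ k ∈ I, z ∈ U k := by simpa using hI hz
      by_cases hkJ : k ∈ J
      · left; simp only [mem_iUnion]; exact ⟨k, hkJ, hzk⟩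
      · right; simp only [mem_iUnion]; exact ⟨k, by simp [hk, hkJ], hzk⟩)
    ⟨v, hv, by simp only [mem_iUnion]; exact ⟨i0, hJ.2.mem, hi0⟩⟩
    (by
      obtain ⟨k, hk, hzk⟩ : ∃ k ∈ I, x ∈ U k := by simpa using hI hxS
      refine ⟨x, hxS, ?_⟩
      simp only [mem_iUnion]
      exact ⟨k, by simp only [Finset.mem_sdiff]; exact ⟨hk, fun h => hx k h hzk⟩, hzk⟩)
  obtain ⟨z, hzS, hz1, hz2⟩ := h1
  simp only [mem_iUnion] at hz1 hz2
  obtain ⟨i, hi, hzi⟩ := hz1
  obtain ⟨j, hj, hzj⟩ := hz2
  rw [Finset.mem_sdiff] at hj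
  have h2 := hJmax (insert j J) ⟨Finset.insert_subset hj.1 hJ.1,
    Chain.step hJ.2 hj.2 hi ⟨z, hzS, hzj, hzi⟩⟩
  rw [Finset.card_insert_of_notMem hj.2] at h2
  omega

theorem F_le_hausdorff [MeasurableSpace E] [BorelSpace E] {S : Set E} (hS : IsCompact S)
    (hS' : IsPreconnected S) (hSK : S ⊆ K) {A : Multiset E} (hA : A ≠ 0) (hAS : ∀ a ∈ A, a ∈ S)
    {v : E} (hv : v ∈ S) : ENNReal.ofReal (F K A v) ≤ μH[1] S := by
  by_contra hcon
  push Not at hcon
  obtain ⟨c', hc1, hc2⟩ := exists_between hcon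
  have hc' : c' ≠ ∞ := ne_top_of_lt hc2
  set c := c'.toReal with hc
  have hcc : c' = ENNReal.ofReal c := (ENNReal.ofReal_toReal hc').symm
  rw [hcc] at hc1 hc2
  have hlt : c < F K A v := by
    rwa [ENNReal.ofReal_lt_ofReal_iff_of_nonneg ENNReal.toReal_nonneg] at hc2
  have hcard : (0 : ℝ) < A.card := by exact_mod_cast Multiset.card_pos.2 hA
  have hδ : 0 < (F K A v - c) / (4 * A.card) := by
    have := sub_pos.2 hlt
    positivity
  obtain ⟨U, w, hU, hcov, hw, hw0, hwδ, hsum⟩ := exists_open_cover hδ hc1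
  obtain ⟨i0, J, hi0, hJ, hJS⟩ := exists_chain hS hS' hU hcov hv
  have h1 := F_le (chain_net hSK (hSK hv) hi0 hw hw0 hwδ hJ A hA fun a ha => hJS a (hAS a ha))
  have h2 : 2 * (A.card : ℝ) * ((F K A v - c) / (4 * A.card)) = (F K A v - c) / 2 := by
    field_simp; ring
  rw [h2] at h1
  linarith [hsum J]

end

end Pool.Agent.Lib.MP_8790b5_co
end

-- part Pool.Agent.Lib.MP_8790b5_co.Exist
section

open MeasureTheory Metric Set
open scoped ENNReal NNReal

namespace Pool.Agent.Lib.MP_8790b5_co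

section

variable {E : Type}

def Adj (M : Multiset (E × E)) (x y : E) : Prop := (x, y) ∈ M ∨ (y, x) ∈ M

def Reach (M : Multiset (E × E)) : E → E → Prop := Relation.ReflTransGen (Adj M)

theorem Adj.symm {M : Multiset (E × E)} {x y : E} (h : Adj M x y) : Adj M y x := Or.symm h

theorem Reach.refl (M : Multiset (E × E)) (x : E) : Reach M x x := Relation.ReflTransGen.refl

theorem Reach.trans {M : Multiset (E × E)} {x y z : E} (h : Reach M x y) (h' : Reach M y z) :
    Reach M x z := Relation.ReflTransGen.trans h h'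

theorem Adj.reach {M : Multiset (E × E)} {x y : E} (h : Adj M x y) : Reach M x y :=
  Relation.ReflTransGen.single h

theorem Reach.symm {M : Multiset (E × E)} {x y : E} (h : Reach M x y) : Reach M y x := by
  induction h with
  | refl => exact Reach.refl _ _
  | tail _ h2 ih => exact h2.symm.reach.trans ih

theorem Reach.of_forall {M N : Multiset (E × E)} (hMN : ∀ e ∈ M, Reach N e.1 e.2) {x y : E}
    (h : Reach M x y) : Reach N x y := by
  induction h with
  | refl => exact Reach.refl _ _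
  | tail _ h2 ih =>
    rcases h2 with h2 | h2
    · exact ih.trans (hMN _ h2)
    · exact ih.trans (hMN _ h2).symm

theorem reach_of_mem {M : Multiset (E × E)} {e : E × E} (h : e ∈ M) : Reach M e.1 e.2 :=
  Adj.reach (Or.inl h)

theorem Reach.mono {M N : Multiset (E × E)} (hMN : ∀ e ∈ M, e ∈ N) {x y : E}
    (h : Reach M x y) : Reach N x y :=
  h.of_forall fun e he => reach_of_mem (hMN e he)

theorem Tr.reach_edges (t : Tr E) : ∀ v : E, ∀ e ∈ t.edges v, Reach (t.edges v) v e.1 := by
  induction t with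
  | leaf a =>
    intro v e he
    simp only [Tr.edges, Multiset.mem_singleton] at he
    subst he
    exact Reach.refl _ _
  | node u l r ihl ihr =>
    intro v e he
    have hvu : Reach ((Tr.node u l r).edges v) v u :=
      reach_of_mem (e := (v, u)) (by simp [Tr.edges])
    simp only [Tr.edges, Multiset.mem_cons, Multiset.mem_add] at he
    rcases he with rfl | he | he
    · exact Reach.refl _ _
    · exact hvu.trans ((ihl u e he).mono fun e he => by simp [Tr.edges, he])
    · exact hvu.trans ((ihr u e he).mono fun e he => by simp [Tr.edges, he])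

theorem Tr.leaf_edge (t : Tr E) : ∀ v : E, ∀ a ∈ t.leaves, ∃ e ∈ t.edges v, e.2 = a := by
  induction t with
  | leaf a =>
    intro v b hb
    simp only [Tr.leaves, Multiset.mem_singleton] at hb
    exact ⟨(v, a), by simp [Tr.edges], hb.symm⟩
  | node u l r ihl ihr =>
    intro v b hb
    simp only [Tr.leaves, Multiset.mem_add] at hb
    rcases hb with hb | hb
    · obtain ⟨e, he, h⟩ := ihl u b hb
      exact ⟨e, by simp [Tr.edges, he], h⟩
    · obtain ⟨e, he, h⟩ := ihr u b hb
      exact ⟨e, by simp [Tr.edges, he], h⟩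

theorem Tr.edges_mem {K : Set E} (t : Tr E) : ∀ v : E, v ∈ K → t.inK K →
    (∀ a ∈ t.leaves, a ∈ K) → ∀ e ∈ t.edges v, e.1 ∈ K ∧ e.2 ∈ K := by
  induction t with
  | leaf a =>
    intro v hv _ hl e he
    simp only [Tr.edges, Multiset.mem_singleton] at he
    subst he
    exact ⟨hv, hl a (by simp [Tr.leaves])⟩
  | node u l r ihl ihr =>
    intro v hv hK hl e he
    obtain ⟨hu, hKl, hKr⟩ := hK
    simp only [Tr.edges, Multiset.mem_cons, Multiset.mem_add] at he
    rcases he with rfl | he | he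
    · exact ⟨hv, hu⟩
    · exact ihl u hu hKl (fun a ha => hl a (by simp [Tr.leaves, ha])) e he
    · exact ihr u hu hKr (fun a ha => hl a (by simp [Tr.leaves, ha])) e he

end

section

variable {E : Type} [NormedAddCommGroup E] [InnerProductSpace ℝ E]

def car (M : Multiset (E × E)) : Set E := {x | ∃ e ∈ M, x ∈ segment ℝ e.1 e.2}

@[simp] theorem car_zero : car (0 : Multiset (E × E)) = ∅ := by simp [car]

theorem car_cons (e : E × E) (M : Multiset (E × E)) :
    car (e ::ₘ M) = segment ℝ e.1 e.2 ∪ car M := by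
  ext x; simp [car]

theorem segment_subset_car {M : Multiset (E × E)} {e : E × E} (he : e ∈ M) :
    segment ℝ e.1 e.2 ⊆ car M := fun _ hx => ⟨e, he, hx⟩

theorem isCompact_seg (x y : E) : IsCompact (segment ℝ x y) := by
  rw [segment_eq_image_lineMap]
  exact isCompact_Icc.image AffineMap.lineMap_continuous

theorem isCompact_car (M : Multiset (E × E)) : IsCompact (car M) := by
  induction M using Multiset.induction_on with
  | empty => simp
  | cons e M ih => rw [car_cons]; exact (isCompact_seg _ _).union ih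

theorem reach_joined {M : Multiset (E × E)} {v y : E} (hv : v ∈ car M) (h : Reach M v y) :
    ∃ T ⊆ car M, v ∈ T ∧ y ∈ T ∧ IsPreconnected T := by
  induction h with
  | refl => exact ⟨{v}, by simpa using hv, rfl, rfl, isPreconnected_singleton⟩
  | @tail b c _ h2 ih =>
    obtain ⟨T, hT, hvT, hbT, hc⟩ := ih
    have hseg : segment ℝ b c ⊆ car M := by
      rcases h2 with h2 | h2
      · exact segment_subset_car h2
      · rw [segment_symm]; exact segment_subset_car h2
    exact ⟨T ∪ segment ℝ b c, union_subset hT hseg, Or.inl hvT,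
      Or.inr (right_mem_segment _ _ _),
      hc.union b hbT (left_mem_segment _ _ _) (convex_segment b c).isPreconnected⟩

theorem isConnected_car {M : Multiset (E × E)} {v : E} (hv : v ∈ car M)
    (h : ∀ e ∈ M, Reach M v e.1) : IsConnected (car M) := by
  refine ⟨⟨v, hv⟩, isPreconnected_of_forall v ?_⟩
  rintro y ⟨e, he, hy⟩
  obtain ⟨T, hT, hvT, heT, hc⟩ := reach_joined hv (h e he)
  exact ⟨T ∪ segment ℝ e.1 e.2, union_subset hT (segment_subset_car he), Or.inl hvT, Or.inr hy,
    hc.union e.1 heT (left_mem_segment _ _ _) (convex_segment _ _).isPreconnected⟩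

variable [MeasurableSpace E] [BorelSpace E]

theorem hausdorff_car_le (M : Multiset (E × E)) : μH[1] (car M) ≤ ENNReal.ofReal (len M) := by
  induction M using Multiset.induction_on with
  | empty => simp
  | cons e M ih =>
    rw [car_cons, len_cons, ENNReal.ofReal_add dist_nonneg (len_nonneg M)]
    refine (measure_union_le _ _).trans ?_
    rw [hausdorffMeasure_segment, edist_dist]
    gcongr

theorem hausdorff_car_inter_sphere {M : Multiset (E × E)}
    (hM : ∀ e ∈ M, e.1 ∈ closedBall (0 : E) 1 ∧ e.2 ∈ closedBall (0 : E) 1) :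
    μH[1] (car M \ ball 0 1) = 0 := by
  have := Measure.nullSingletonClass_hausdorff E (d := 1) one_pos
  induction M using Multiset.induction_on with
  | empty => simp
  | cons e M ih =>
    rw [car_cons, union_sdiff_distrib]
    refine measure_union_null ?_ (ih fun e he => hM e (by simp [he]))
    obtain ⟨h1, h2⟩ := hM e (by simp)
    refine measure_mono_null (t := {e.1, e.2}) ?_ ((Set.toFinite _).measure_zero _)
    intro x hx
    by_cases h : e.1 = e.2
    · have := hx.1
      rw [h, segment_same] at this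
      exact Or.inr this
    · have h3 := hx.1
      rw [← insert_endpoints_openSegment] at h3
      rcases h3 with h3 | h3 | h3
      · exact Or.inl h3
      · exact Or.inr h3
      · exact absurd (openSegment_subset_ball_of_ne h1 h2 h h3) hx.2

theorem exists_opt [ProperSpace E] (A : Finset E) (hA : ∀ a ∈ A, ‖a‖ ≤ 1) {v : E} (hv : v ∈ A) :
    ∃ t : Tr E, t.leaves = A.val ∧ t.inK (closedBall 0 1) ∧
      ∀ S' : Set E, IsClosed S' → IsConnected S' → (A : Set E) ⊆ S' →
        ENNReal.ofReal (len (t.edges v)) ≤ μH[1] S' := by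
  have hA0 : A.val ≠ 0 := by
    intro h
    have : v ∈ A.val := hv
    rw [h] at this
    simp at this
  obtain ⟨t, h1, h2, h3⟩ := net_F (isCompact_closedBall (0 : E) 1) ⟨0, by simp⟩ _ A.val rfl hA0 v
  refine ⟨t, h1, h2, fun S' hcl hcon hAS => ?_⟩
  rcases eq_top_or_lt_top (μH[1] S') with h | h
  · rw [h]; exact le_top
  have hcomp : IsCompact S' :=
    Metric.isCompact_of_isClosed_isBounded hcl (isBounded_of_preconnected hcon.2 h)
  have hcont : Continuous (proj : E → E) := lipschitz_proj.continuous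
  have h4 := F_le_hausdorff (K := closedBall (0 : E) 1) (hcomp.image hcont)
    (hcon.2.image _ hcont.continuousOn)
    (by rintro _ ⟨x, -, rfl⟩; simpa using norm_proj_le x) hA0
    (fun a ha => ⟨a, hAS ha, proj_of_le (hA a ha)⟩)
    (v := v) ⟨v, hAS hv, proj_of_le (hA v hv)⟩
  have h5 := lipschitz_proj.hausdorffMeasure_image_le (d := 1) zero_le_one S'
  simp only [ENNReal.coe_one, ENNReal.one_rpow, one_mul] at h5
  exact (ENNReal.ofReal_le_ofReal h3).trans (h4.trans h5)

end

/-- An optimal polygonal network for a finite set of terminals in the closed unit ball. -/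
structure OptNet {d : ℕ} (A : Finset (EuclideanSpace ℝ (Fin d)))
    (v : EuclideanSpace ℝ (Fin d)) (t : Tr (EuclideanSpace ℝ (Fin d))) : Prop where
  hv : v ∈ A
  hA : ∀ a ∈ A, ‖a‖ ≤ 1
  leaves : t.leaves = A.val
  inK : t.inK (closedBall 0 1)
  opt : ∀ S' : Set (EuclideanSpace ℝ (Fin d)), IsClosed S' → IsConnected S' →
    (A : Set (EuclideanSpace ℝ (Fin d))) ⊆ S' → ENNReal.ofReal (len (t.edges v)) ≤ μH[1] S'

variable {d : ℕ} {A : Finset (EuclideanSpace ℝ (Fin d))} {v : EuclideanSpace ℝ (Fin d)}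
  {t : Tr (EuclideanSpace ℝ (Fin d))}

theorem exists_optNet (hA : ∀ a ∈ A, ‖a‖ ≤ 1) (hv : v ∈ A) : ∃ t, OptNet A v t := by
  obtain ⟨t, h1, h2, h3⟩ := exists_opt A hA hv
  exact ⟨t, hv, hA, h1, h2, h3⟩

theorem OptNet.subset (h : OptNet A v t) :
    (A : Set (EuclideanSpace ℝ (Fin d))) ⊆ car (t.edges v) := by
  intro a ha
  obtain ⟨e, he, rfl⟩ := t.leaf_edge v a (by rw [h.leaves]; exact ha)
  exact segment_subset_car he (right_mem_segment _ _ _)

theorem OptNet.edges_mem (h : OptNet A v t) : ∀ e ∈ t.edges v,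
    e.1 ∈ closedBall (0 : EuclideanSpace ℝ (Fin d)) 1 ∧
      e.2 ∈ closedBall (0 : EuclideanSpace ℝ (Fin d)) 1 :=
  t.edges_mem v (by simpa using h.hA v h.hv) h.inK
    (fun a ha => by rw [h.leaves] at ha; simpa using h.hA a ha)

theorem OptNet.isSteiner (h : OptNet A v t) :
    IsSteinerTree (A : Set (EuclideanSpace ℝ (Fin d))) (car (t.edges v)) :=
  ⟨(isCompact_car _).isClosed, isConnected_car (h.subset h.hv) (t.reach_edges v), h.subset,
    (hausdorff_car_le _).trans_lt ENNReal.ofReal_lt_top,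
    fun S' h1 h2 h3 => (hausdorff_car_le _).trans (h.opt S' h1 h2 h3)⟩

theorem OptNet.measure_ball (h : OptNet A v t) :
    μH[1] (car (t.edges v) ∩ ball 0 1) = μH[1] (car (t.edges v)) := by
  have h1 := measure_inter_add_sdiff (μ := μH[1]) (car (t.edges v))
    (measurableSet_ball (x := (0 : EuclideanSpace ℝ (Fin d))) (ε := 1))
  rw [hausdorff_car_inter_sphere h.edges_mem, add_zero] at h1
  exact h1

/-- Lower bounds valid for all connected supersets of a finite subset of the unit sphere are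
lower bounds for `L_d`. -/
theorem le_steinerBallLength (hA : ∀ a ∈ A, ‖a‖ = 1) (hne : A.Nonempty) {c : ℝ≥0∞}
    (hc : ∀ S : Set (EuclideanSpace ℝ (Fin d)), IsPreconnected S →
      (A : Set (EuclideanSpace ℝ (Fin d))) ⊆ S → c ≤ μH[1] S) :
    c ≤ steinerBallLength d := by
  obtain ⟨v, hv⟩ := hne
  obtain ⟨t, ht⟩ := exists_optNet (fun a ha => (hA a ha).le) hv
  have h1 := hc _ ht.isSteiner.2.1.2 ht.subset
  rw [← ht.measure_ball] at h1
  unfold steinerBallLength
  refine le_iSup_of_le (A : Set (EuclideanSpace ℝ (Fin d))) (le_iSup_of_le (car (t.edges v))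
    (le_iSup_of_le 0 (le_iSup_of_le 1 (le_iSup_of_le A.finite_toSet.isCompact
    (le_iSup_of_le ht.isSteiner (le_iSup_of_le one_pos (le_iSup_of_le ?_ ?_)))))))
  · rw [eq_empty_iff_forall_notMem]
    rintro a ⟨ha, hb⟩
    have := hA a ha
    simp only [mem_ball, dist_zero_right] at hb
    linarith
  · simpa using h1

end Pool.Agent.Lib.MP_8790b5_co
end

-- part Pool.Agent.Lib.MP_8790b5_co.High
section

open MeasureTheory Metric Set
open scoped ENNReal NNReal

namespace Pool.Agent.Lib.MP_8790b5_co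

theorem sum_inter_le {X ι : Type} [MeasurableSpace X] (μ : Measure X) (S : Set X) (I : Finset ι)
    (W : ι → Set X) (hW : ∀ i ∈ I, MeasurableSet (W i))
    (hd : (I : Set ι).PairwiseDisjoint W) : ∑ i ∈ I, μ (S ∩ W i) ≤ μ S := by
  have h1 := measure_biUnion_finset (μ := μ.restrict S) hd hW
  have h2 : μ.restrict S (⋃ i ∈ I, W i) ≤ μ S := by
    refine (measure_mono (subset_univ _)).trans ?_
    rw [Measure.restrict_apply_univ]
  rw [h1] at h2
  refine le_of_eq_of_le (Finset.sum_congr rfl fun i hi => ?_) h2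
  rw [Measure.restrict_apply (hW i hi), inter_comm]

noncomputable def emb {d : ℕ} (hd : 3 ≤ d) (x y z : ℝ) : EuclideanSpace ℝ (Fin d) :=
  EuclideanSpace.single ⟨0, by omega⟩ x + EuclideanSpace.single ⟨1, by omega⟩ y +
    EuclideanSpace.single ⟨2, by omega⟩ z

theorem emb_sub {d : ℕ} (hd : 3 ≤ d) (x y z x' y' z' : ℝ) :
    emb hd x y z - emb hd x' y' z' = emb hd (x - x') (y - y') (z - z') := by
  simp only [emb, EuclideanSpace.single, PiLp.single_sub]
  abel

theorem norm_emb_sq {d : ℕ} (hd : 3 ≤ d) (x y z : ℝ) :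
    ‖emb hd x y z‖ ^ 2 = x ^ 2 + y ^ 2 + z ^ 2 := by
  rw [emb, norm_add_sq_real, norm_add_sq_real, inner_add_left]
  simp [EuclideanSpace.inner_single_left, Fin.ext_iff]

theorem dist_emb_sq {d : ℕ} (hd : 3 ≤ d) (x y z x' y' z' : ℝ) :
    dist (emb hd x y z) (emb hd x' y' z') ^ 2 = (x - x') ^ 2 + (y - y') ^ 2 + (z - z') ^ 2 := by
  rw [dist_eq_norm, emb_sub, norm_emb_sq]

theorem le_dist_emb {d : ℕ} (hd : 3 ≤ d) {x y z x' y' z' c : ℝ}
    (h : c ^ 2 ≤ (x - x') ^ 2 + (y - y') ^ 2 + (z - z') ^ 2) :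
    c ≤ dist (emb hd x y z) (emb hd x' y' z') := by
  rw [← dist_emb_sq hd] at h
  exact (abs_le_of_sq_le_sq' h dist_nonneg).2

theorem dist_emb_le {d : ℕ} (hd : 3 ≤ d) {x y z x' y' z' c : ℝ} (hc : 0 ≤ c)
    (h : (x - x') ^ 2 + (y - y') ^ 2 + (z - z') ^ 2 ≤ c ^ 2) :
    dist (emb hd x y z) (emb hd x' y' z') ≤ c := by
  rw [← dist_emb_sq hd] at h
  exact (sq_le_sq₀ dist_nonneg hc).1 h

theorem norm_emb_eq_one {d : ℕ} (hd : 3 ≤ d) {x y z : ℝ} (h : x ^ 2 + y ^ 2 + z ^ 2 = 1) :
    ‖emb hd x y z‖ = 1 := by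
  rw [← norm_emb_sq hd] at h
  exact (sq_eq_sq₀ (norm_nonneg _) zero_le_one).1 (by rw [h]; norm_num)

theorem one_le_sq_sub_nat {i j : ℕ} (h : i ≠ j) : (1 : ℝ) ≤ ((i : ℝ) - j) ^ 2 := by
  have : (1 : ℤ) ≤ ((i : ℤ) - j) ^ 2 := by
    have : (i : ℤ) - j ≠ 0 := by omega
    have := sq_pos_of_ne_zero this
    omega
  exact_mod_cast this

theorem steinerBallLength_high {d : ℕ} (hd : 3 ≤ d) : steinerBallLength d = ∞ := by
  classical
  refine ENNReal.eq_top_of_forall_nnreal_le fun r => ?_
  obtain ⟨n, hn⟩ := exists_nat_ge (4 * (r : ℝ) + 2)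
  have hr0 : (0 : ℝ) ≤ r := r.2
  have hn2 : (2 : ℝ) ≤ n := by linarith
  have hn2' : 2 ≤ n := by exact_mod_cast hn2
  have hn0 : (0 : ℝ) < n := by linarith
  set g : ℕ × ℕ → EuclideanSpace ℝ (Fin d) := fun p =>
    emb hd (p.1 / (2 * n)) (p.2 / (2 * n)) (√(1 - (p.1 / (2 * n)) ^ 2 - (p.2 / (2 * n)) ^ 2))
    with hg
  set I : Finset (ℕ × ℕ) := Finset.range n ×ˢ Finset.range n with hI
  have hsep : ∀ p q : ℕ × ℕ, p ≠ q → 1 / (2 * (n : ℝ)) ≤ dist (g p) (g q) := by
    intro p q hpq
    apply le_dist_emb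
    have h1 : (1 : ℝ) ≤ ((p.1 : ℝ) - q.1) ^ 2 + ((p.2 : ℝ) - q.2) ^ 2 := by
      by_cases h : p.1 = q.1
      · have : p.2 ≠ q.2 := fun h' => hpq (Prod.ext h h')
        nlinarith [one_le_sq_sub_nat this, sq_nonneg ((p.1 : ℝ) - q.1)]
      · nlinarith [one_le_sq_sub_nat h, sq_nonneg ((p.2 : ℝ) - q.2)]
    have h2 : ((p.1 : ℝ) / (2 * n) - q.1 / (2 * n)) ^ 2 + ((p.2 : ℝ) / (2 * n) - q.2 / (2 * n)) ^ 2
        = (((p.1 : ℝ) - q.1) ^ 2 + ((p.2 : ℝ) - q.2) ^ 2) * (1 / (2 * (n : ℝ))) ^ 2 := by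
      field_simp
    rw [h2]
    have h3 : 0 ≤ (1 / (2 * (n : ℝ))) ^ 2 := sq_nonneg _
    nlinarith [sq_nonneg (√(1 - ((p.1 : ℝ) / (2 * n)) ^ 2 - (p.2 / (2 * n)) ^ 2) -
      √(1 - ((q.1 : ℝ) / (2 * n)) ^ 2 - (q.2 / (2 * n)) ^ 2))]
  refine le_steinerBallLength (A := I.image g) ?_ ?_ ?_
  · intro a ha
    obtain ⟨p, hp, rfl⟩ := Finset.mem_image.1 ha
    simp only [hI, Finset.mem_product, Finset.mem_range] at hp
    have h1 : (p.1 : ℝ) / (2 * n) ≤ 1 / 2 := by
      rw [div_le_div_iff₀ (by positivity) (by positivity)]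
      have : (p.1 : ℝ) ≤ n := by exact_mod_cast hp.1.le
      linarith
    have h2 : (p.2 : ℝ) / (2 * n) ≤ 1 / 2 := by
      rw [div_le_div_iff₀ (by positivity) (by positivity)]
      have : (p.2 : ℝ) ≤ n := by exact_mod_cast hp.2.le
      linarith
    have h1' : 0 ≤ (p.1 : ℝ) / (2 * n) := by positivity
    have h2' : 0 ≤ (p.2 : ℝ) / (2 * n) := by positivity
    apply norm_emb_eq_one
    rw [Real.sq_sqrt (by nlinarith)]
    ring
  · exact ⟨g (0, 0), Finset.mem_image_of_mem _ (by simp [hI]; omega)⟩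
  · intro S hS hAS
    have hmem : ∀ p ∈ I, g p ∈ S := fun p hp => hAS (by
      simp only [Finset.coe_image]; exact mem_image_of_mem _ hp)
    have h1 := sum_inter_le μH[1] S I (fun p => ball (g p) (1 / (4 * n)))
      (fun _ _ => measurableSet_ball) (by
        intro p _ q _ hpq
        apply ball_disjoint_ball
        have := hsep p q hpq
        have h4 : 1 / (4 * (n : ℝ)) + 1 / (4 * n) = 1 / (2 * n) := by field_simp; ring
        linarith)
    refine le_trans ?_ h1
    have h2 : ∀ p ∈ I, ENNReal.ofReal (1 / (4 * n)) ≤ μH[1] (S ∩ ball (g p) (1 / (4 * n))) := by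
      intro p hp
      obtain ⟨q, hq, hqp⟩ : ∃ q ∈ I, q ≠ p := by
        by_cases h : p = (0, 0)
        · exact ⟨(1, 0), by simp [hI]; omega, by simp [h]⟩
        · exact ⟨(0, 0), by simp [hI]; omega, fun h' => h h'.symm⟩
      refine radial_le hS (hmem p hp) (hmem q hq) (le_trans ?_ (hsep q p hqp))
      exact one_div_le_one_div_of_le (by positivity) (by linarith)
    refine le_trans ?_ (Finset.sum_le_sum h2)
    rw [Finset.sum_const, hI, Finset.card_product, Finset.card_range, nsmul_eq_mul,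
      ← ENNReal.ofReal_natCast, ← ENNReal.ofReal_mul (by positivity), ← ENNReal.ofReal_coe_nnreal]
    apply ENNReal.ofReal_le_ofReal
    push_cast
    have : (n : ℝ) * n * (1 / (4 * n)) = n / 4 := by field_simp
    rw [this]
    linarith

end Pool.Agent.Lib.MP_8790b5_co
end
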