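import Mathlib
import Pool.Agent.Lib.MP_8790b5_co.High

-- part Pool.Agent.Lib.MP_8790b5_co.Branch
section

open MeasureTheory Metric Set
open scoped ENNReal NNReal

namespace Pool.Agent.Lib.MP_8790b5_co

section Trees

variable {E : Type}

def Tr.hasNode (p : E) : Tr E → Prop
  | Tr.leaf _ => False
  | Tr.node u l r => u = p ∨ l.hasNode p ∨ r.hasNode p

def Inc (p : E) (e : E × E) : Prop := (e.1 = p ∧ e.2 ≠ p) ∨ (e.2 = p ∧ e.1 ≠ p)

open Classical in
noncomputable def deg (p : E) (M : Multiset (E × E)) : ℕ := (M.filter (Inc p)).card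

theorem deg_add (p : E) (M N : Multiset (E × E)) : deg p (M + N) = deg p M + deg p N := by
  classical
  simp [deg, Multiset.filter_add]

theorem deg_cons_le (p : E) (e : E × E) (M : Multiset (E × E)) : deg p M ≤ deg p (e ::ₘ M) := by
  rw [← Multiset.singleton_add, deg_add]; omega

theorem deg_cons_of_inc {p : E} {e : E × E} (h : Inc p e) (M : Multiset (E × E)) :
    deg p (e ::ₘ M) = deg p M + 1 := by
  classical
  simp [deg, Multiset.filter_cons_of_pos _ h]

theorem Tr.one_le_deg (p : E) (t : Tr E) : p ∉ t.leaves → 1 ≤ deg p (t.edges p) := by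
  induction t with
  | leaf a =>
    intro h
    simp only [Tr.leaves, Multiset.mem_singleton] at h
    have : Inc p (p, a) := Or.inl ⟨rfl, fun h' => h h'.symm⟩
    simp only [Tr.edges]
    rw [← Multiset.cons_zero, deg_cons_of_inc this]
    omega
  | node u l r ihl ihr =>
    intro h
    simp only [Tr.leaves, Multiset.mem_add, not_or] at h
    simp only [Tr.edges]
    by_cases hu : u = p
    · subst hu
      have h1 := ihl h.1
      have h2 := deg_cons_le u (u, u) (l.edges u + r.edges u)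
      rw [deg_add] at h2
      omega
    · have : Inc p (p, u) := Or.inl ⟨rfl, hu⟩
      rw [deg_cons_of_inc this]
      omega

theorem Tr.three_le_deg (p : E) (t : Tr E) : ∀ v, v ≠ p → p ∉ t.leaves → t.hasNode p →
    3 ≤ deg p (t.edges v) := by
  induction t with
  | leaf a => intro v _ _ h; exact h.elim
  | node u l r ihl ihr =>
    intro v hv h hn
    simp only [Tr.leaves, Multiset.mem_add, not_or] at h
    simp only [Tr.edges]
    by_cases hu : u = p
    · subst hu
      have : Inc u (v, u) := Or.inr ⟨rfl, hv⟩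
      rw [deg_cons_of_inc this, deg_add]
      have h1 := l.one_le_deg u h.1
      have h2 := r.one_le_deg u h.2
      omega
    · have h2 := deg_cons_le p (v, u) (l.edges u + r.edges u)
      rw [deg_add] at h2
      rcases hn with hn | hn | hn
      · exact absurd hn hu
      · have := ihl u hu h.1 hn; omega
      · have := ihr u hu h.2 hn; omega

theorem Tr.endpoint_cases (t : Tr E) : ∀ v, ∀ e ∈ t.edges v,
    (e.1 = v ∨ t.hasNode e.1) ∧ (e.2 ∈ t.leaves ∨ t.hasNode e.2) := by
  induction t with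
  | leaf a =>
    intro v e he
    simp only [Tr.edges, Multiset.mem_singleton] at he
    subst he
    simp [Tr.leaves]
  | node u l r ihl ihr =>
    intro v e he
    simp only [Tr.edges, Multiset.mem_cons, Multiset.mem_add] at he
    simp only [Tr.hasNode, Tr.leaves, Multiset.mem_add]
    rcases he with rfl | he | he
    · simp
    · obtain ⟨h1, h2⟩ := ihl u e he
      refine ⟨Or.inr ?_, ?_⟩
      · rcases h1 with h1 | h1
        · exact Or.inl h1.symm
        · exact Or.inr (Or.inl h1)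
      · tauto
    · obtain ⟨h1, h2⟩ := ihr u e he
      refine ⟨Or.inr ?_, ?_⟩
      · rcases h1 with h1 | h1
        · exact Or.inl h1.symm
        · exact Or.inr (Or.inr h1)
      · tauto

theorem last_exit {M : Multiset (E × E)} {a b : E} (hab : a ≠ b) (h : Reach M a b) :
    ∃ x, x ≠ a ∧ Adj M a x ∧ ∀ N : Multiset (E × E),
      (∀ e ∈ M, e.1 ≠ a → e.2 ≠ a → e ∈ N) → Reach N x b := by
  have key : ∀ y, Reach M y b → (y ≠ a ∧ ∀ N : Multiset (E × E),
      (∀ e ∈ M, e.1 ≠ a → e.2 ≠ a → e ∈ N) → Reach N y b) ∨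
      (∃ x, x ≠ a ∧ Adj M a x ∧ ∀ N : Multiset (E × E),
      (∀ e ∈ M, e.1 ≠ a → e.2 ≠ a → e ∈ N) → Reach N x b) := by
    intro y hy
    induction hy using Relation.ReflTransGen.head_induction_on with
    | refl => exact Or.inl ⟨hab.symm, fun N _ => Reach.refl _ _⟩
    | @head y y' hyy _ ih =>
      rcases ih with ⟨h1, h2⟩ | ih
      · by_cases hya : y = a
        · subst hya
          exact Or.inr ⟨y', h1, hyy, h2⟩
        · refine Or.inl ⟨hya, fun N hN => Reach.trans (Adj.reach ?_) (h2 N hN)⟩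
          rcases hyy with h3 | h3
          · exact Or.inl (hN _ h3 hya h1)
          · exact Or.inr (hN _ h3 h1 hya)
      · exact Or.inr ih
  rcases key a h with ⟨h1, -⟩ | h1
  · exact absurd rfl h1
  · exact h1

theorem exists_cons_cons {α : Type} {M : Multiset α} {a b : α} (ha : a ∈ M) (hb : b ∈ M)
    (hab : a ≠ b) : ∃ M', M = a ::ₘ b ::ₘ M' := by
  obtain ⟨M1, rfl⟩ := Multiset.exists_cons_of_mem ha
  rcases Multiset.mem_cons.1 hb with h | h
  · exact absurd h.symm hab
  · obtain ⟨M2, rfl⟩ := Multiset.exists_cons_of_mem h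
    exact ⟨M2, rfl⟩

end Trees

variable {d : ℕ} {A : Finset (EuclideanSpace ℝ (Fin d))} {v : EuclideanSpace ℝ (Fin d)}
  {t : Tr (EuclideanSpace ℝ (Fin d))}

theorem OptNet.reach (h : OptNet A v t) {a : EuclideanSpace ℝ (Fin d)} (ha : a ∈ A) :
    Reach (t.edges v) v a := by
  obtain ⟨e, he, rfl⟩ := t.leaf_edge v a (by rw [h.leaves]; exact ha)
  exact (t.reach_edges v e he).trans (reach_of_mem he)

theorem OptNet.replace (h : OptNet A v t)
    {N : Multiset (EuclideanSpace ℝ (Fin d) × EuclideanSpace ℝ (Fin d))}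
    (h1 : ∀ a ∈ A, Reach N v a) (h2 : ∀ e ∈ N, Reach N v e.1) (h3 : N ≠ 0) :
    len (t.edges v) ≤ len N := by
  obtain ⟨e, he⟩ := Multiset.exists_mem_of_ne_zero h3
  have hv : v ∈ car N := by
    obtain ⟨T, hT, -, hvT, -⟩ :=
      reach_joined (segment_subset_car he (left_mem_segment _ _ _)) (h2 e he).symm
    exact hT hvT
  have h4 := h.opt (car N) (isCompact_car N).isClosed (isConnected_car hv h2) (by
    intro a ha
    obtain ⟨T, hT, -, haT, -⟩ := reach_joined hv (h1 a ha)
    exact hT haT)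
  exact (ENNReal.ofReal_le_ofReal_iff (len_nonneg N)).1 (h4.trans (hausdorff_car_le N))

theorem OptNet.no_overlap (h : OptNet A v t)
    {e e' : EuclideanSpace ℝ (Fin d) × EuclideanSpace ℝ (Fin d)}
    {M' : Multiset (EuclideanSpace ℝ (Fin d) × EuclideanSpace ℝ (Fin d))}
    (hM : t.edges v = e ::ₘ e' ::ₘ M') {p z : EuclideanSpace ℝ (Fin d)}
    (hp : p ∈ segment ℝ e.1 e.2) (hp' : p ∈ segment ℝ e'.1 e'.2)
    (hz : z ∈ segment ℝ e.1 e.2) (hz' : z ∈ segment ℝ e'.1 e'.2) : z = p := by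
  have hS := h.isSteiner
  have h1 := h.opt _ hS.1 hS.2.1 hS.2.2.1
  rw [hM, car_cons, car_cons, ← union_assoc, len_cons, len_cons,
    ENNReal.ofReal_add dist_nonneg (add_nonneg dist_nonneg (len_nonneg _)),
    ENNReal.ofReal_add dist_nonneg (len_nonneg _), ← add_assoc] at h1
  have h2 := h1.trans ((measure_union_le _ _).trans (add_le_add le_rfl (hausdorff_car_le M')))
  have h3 := ENNReal.le_of_add_le_add_right ENNReal.ofReal_ne_top h2
  have h4 := measure_union_add_inter (μ := μH[1]) (segment ℝ e.1 e.2)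
    (isCompact_seg e'.1 e'.2).measurableSet
  rw [hausdorffMeasure_segment, hausdorffMeasure_segment, edist_dist, edist_dist] at h4
  have h5 : μH[1] (segment ℝ e.1 e.2 ∪ segment ℝ e'.1 e'.2) ≠ ∞ := by
    refine ne_top_of_le_ne_top ?_ (le_self_add.trans h4.le)
    exact ENNReal.add_ne_top.2 ⟨ENNReal.ofReal_ne_top, ENNReal.ofReal_ne_top⟩
  rw [← h4] at h3
  have h6 : μH[1] (segment ℝ e.1 e.2 ∩ segment ℝ e'.1 e'.2) = 0 := by
    have : μH[1] (segment ℝ e.1 e.2 ∪ segment ℝ e'.1 e'.2) +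
        μH[1] (segment ℝ e.1 e.2 ∩ segment ℝ e'.1 e'.2) ≤
        μH[1] (segment ℝ e.1 e.2 ∪ segment ℝ e'.1 e'.2) + 0 := by simpa using h3
    exact le_zero_iff.1 (ENNReal.le_of_add_le_add_left h5 this)
  have h7 : μH[1] (segment ℝ z p) = 0 :=
    measure_mono_null (subset_inter ((convex_segment _ _).segment_subset hz hp)
      ((convex_segment _ _).segment_subset hz' hp')) h6
  rw [hausdorffMeasure_segment] at h7
  exact edist_eq_zero.1 h7

theorem segment_split {E : Type} [NormedAddCommGroup E] [NormedSpace ℝ E] {x y p : E}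
    (hp : p ∈ segment ℝ x y) : segment ℝ x y ⊆ segment ℝ p x ∪ segment ℝ p y := by
  intro z hz
  have h1 : Wbtw ℝ x p y := mem_segment_iff_wbtw.1 hp
  have h2 : Wbtw ℝ x z y := mem_segment_iff_wbtw.1 hz
  obtain ⟨s, hs, rfl⟩ := h1
  obtain ⟨u, hu, rfl⟩ := h2
  rcases le_total u s with h | h
  · left
    rw [segment_symm, mem_segment_iff_wbtw]
    simpa using (Wbtw.of_le_of_le hu.1 h).map (AffineMap.lineMap (k := ℝ) x y)
  · right
    rw [mem_segment_iff_wbtw]
    simpa using (Wbtw.of_le_of_le h hu.2).map (AffineMap.lineMap (k := ℝ) x y)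

theorem segment_inter_opp {E : Type} [NormedAddCommGroup E] [NormedSpace ℝ E] {x y p z : E}
    (hp : p ∈ segment ℝ x y) (h1 : z ∈ segment ℝ p x) (h2 : z ∈ segment ℝ p y) : z = p := by
  have e1 := dist_add_dist_of_mem_segment hp
  have e2 := dist_add_dist_of_mem_segment h1
  have e3 := dist_add_dist_of_mem_segment h2
  have e4 := dist_triangle x z y
  rw [dist_comm x z] at e4
  rw [dist_comm x p] at e1
  have : dist p z ≤ 0 := by linarith
  exact (dist_le_zero.1 this).symm

theorem OptNet.branching (h : OptNet A v t) {p : EuclideanSpace ℝ (Fin d)} (hpA : p ∉ A)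
    (hp : t.hasNode p) :
    IsBranchingPoint (A : Set (EuclideanSpace ℝ (Fin d))) (car (t.edges v)) p := by
  classical
  set M := t.edges v with hM
  have hdeg : 3 ≤ deg p M :=
    t.three_le_deg p v (fun h' => hpA (h' ▸ h.hv)) (by rw [h.leaves]; exact hpA) hp
  set N := M.filter (Inc p) with hN
  have hNcard : 3 ≤ N.card := hdeg
  set o : EuclideanSpace ℝ (Fin d) × EuclideanSpace ℝ (Fin d) → EuclideanSpace ℝ (Fin d) :=
    fun e => if e.1 = p then e.2 else e.1 with ho
  have hinc : ∀ e, Inc p e → p ∈ segment ℝ e.1 e.2 ∧ o e ∈ segment ℝ e.1 e.2 ∧ o e ≠ p ∧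
      (o e = e.1 ∨ o e = e.2) := by
    intro e he
    rcases he with ⟨h1, h2⟩ | ⟨h1, h2⟩
    · have : o e = e.2 := by simp [ho, h1]
      rw [this]
      exact ⟨h1 ▸ left_mem_segment _ _ _, right_mem_segment _ _ _, h2, Or.inr rfl⟩
    · have : o e = e.1 := by simp [ho, h2]
      rw [this]
      exact ⟨h1 ▸ right_mem_segment _ _ _, left_mem_segment _ _ _, h2, Or.inl rfl⟩
  have hNnd : N.Nodup := by
    rw [Multiset.nodup_iff_ne_cons_cons]
    intro e N' hN'
    have he : Inc p e := (Multiset.mem_filter.1 (show e ∈ N by rw [hN']; simp)).2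
    obtain ⟨R, hR⟩ := Multiset.le_iff_exists_add.1 (Multiset.filter_le (Inc p) M)
    rw [← hN, hN', Multiset.cons_add, Multiset.cons_add] at hR
    obtain ⟨h1, h2, h3, -⟩ := hinc e he
    exact h3 (h.no_overlap hR h1 h1 h2 h2)
  have hond : (N.map o).Nodup := by
    refine Multiset.Nodup.map_on ?_ hNnd
    intro e he e' he' hee
    by_contra hne
    rw [hN, Multiset.mem_filter] at he he'
    obtain ⟨R, hR⟩ := exists_cons_cons he.1 he'.1 hne
    obtain ⟨h1, h2, h3, -⟩ := hinc e he.2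
    obtain ⟨h1', h2', -, -⟩ := hinc e' he'.2
    exact h3 (h.no_overlap hR h1 h1' h2 (hee ▸ h2'))
  set M1 := M.filter (fun e => p ∈ segment ℝ e.1 e.2) with hM1
  set M2 := M.filter (fun e => p ∉ segment ℝ e.1 e.2) with hM2
  set Q : Finset (EuclideanSpace ℝ (Fin d)) :=
    ((M1.map Prod.fst + M1.map Prod.snd).toFinset).filter (fun q => q ≠ p) with hQ
  have hQmem : ∀ q, q ∈ Q ↔ (∃ e ∈ M, p ∈ segment ℝ e.1 e.2 ∧ (q = e.1 ∨ q = e.2)) ∧ q ≠ p := by
    intro q
    simp only [hQ, hM1, Finset.mem_filter, Multiset.mem_toFinset, Multiset.mem_add,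
      Multiset.mem_map, Multiset.mem_filter]
    refine and_congr_left fun _ => ⟨?_, ?_⟩
    · rintro (⟨e, ⟨h1, h2⟩, h3⟩ | ⟨e, ⟨h1, h2⟩, h3⟩)
      · exact ⟨e, h1, h2, Or.inl h3.symm⟩
      · exact ⟨e, h1, h2, Or.inr h3.symm⟩
    · rintro ⟨e, h1, h2, h3 | h3⟩
      · exact Or.inl ⟨e, ⟨h1, h2⟩, h3.symm⟩
      · exact Or.inr ⟨e, ⟨h1, h2⟩, h3.symm⟩
  have hseg : ∀ e : EuclideanSpace ℝ (Fin d) × EuclideanSpace ℝ (Fin d), ∀ q,
      p ∈ segment ℝ e.1 e.2 → (q = e.1 ∨ q = e.2) → segment ℝ p q ⊆ segment ℝ e.1 e.2 := by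
    intro e q h1 h2
    refine (convex_segment _ _).segment_subset h1 ?_
    rcases h2 with rfl | rfl
    · exact left_mem_segment _ _ _
    · exact right_mem_segment _ _ _
  have hQcard : 3 ≤ Q.card := by
    have h1 : (N.map o).toFinset ⊆ Q := by
      intro q hq
      rw [Multiset.mem_toFinset, Multiset.mem_map] at hq
      obtain ⟨e, he, rfl⟩ := hq
      rw [hN, Multiset.mem_filter] at he
      obtain ⟨h1, -, h3, h4⟩ := hinc e he.2
      exact (hQmem _).2 ⟨⟨e, he.1, h1, h4⟩, h3⟩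
    have h2 := Finset.card_le_card h1
    rw [Multiset.toFinset_card_of_nodup hond, Multiset.card_map] at h2
    omega
  obtain ⟨q0, hq0⟩ : Q.Nonempty := Finset.card_pos.1 (by omega)
  obtain ⟨⟨e0, he0, hpe0, -⟩, -⟩ := (hQmem q0).1 hq0
  refine ⟨segment_subset_car he0 hpe0, hpA, (car M2)ᶜ, ?_, Q, hQcard,
    fun q hq => ((hQmem q).1 hq).2, ?_, ?_⟩
  · refine (isCompact_car M2).isClosed.isOpen_compl.mem_nhds ?_
    rintro ⟨e, he, hpe⟩
    exact (Multiset.mem_filter.1 he).2 hpe
  · intro q hq q' hq' hne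
    obtain ⟨⟨e, he, hpe, hqe⟩, -⟩ := (hQmem q).1 hq
    obtain ⟨⟨e', he', hpe', hqe'⟩, -⟩ := (hQmem q').1 hq'
    refine Subset.antisymm ?_ (by
      rintro z rfl
      exact ⟨left_mem_segment _ _ _, left_mem_segment _ _ _⟩)
    rintro z ⟨hz, hz'⟩
    by_cases hee : e = e'
    · subst hee
      rcases hqe with rfl | rfl <;> rcases hqe' with h' | h'
      · exact absurd h'.symm hne
      · subst h'; exact segment_inter_opp hpe hz hz'
      · subst h'; exact segment_inter_opp hpe hz' hz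
      · exact absurd h'.symm hne
    · obtain ⟨R, hR⟩ := exists_cons_cons he he' hee
      exact h.no_overlap hR hpe hpe' (hseg e q hpe hqe hz) (hseg e' q' hpe' hqe' hz')
  · ext z
    simp only [mem_inter_iff, mem_iUnion]
    refine and_congr_left fun hz => ⟨?_, ?_⟩
    · rintro ⟨e, he, hze⟩
      have hpe : p ∈ segment ℝ e.1 e.2 := by
        by_contra hcon
        exact hz ⟨e, Multiset.mem_filter.2 ⟨he, hcon⟩, hze⟩
      by_cases hzp : z = p
      · exact ⟨q0, hq0, hzp ▸ left_mem_segment _ _ _⟩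
      rcases segment_split hpe hze with h1 | h1
      · refine ⟨e.1, (hQmem _).2 ⟨⟨e, he, hpe, Or.inl rfl⟩, ?_⟩, h1⟩
        intro h2
        rw [h2, segment_same] at h1
        exact hzp h1
      · refine ⟨e.2, (hQmem _).2 ⟨⟨e, he, hpe, Or.inr rfl⟩, ?_⟩, h1⟩
        intro h2
        rw [h2, segment_same] at h1
        exact hzp h1
    · rintro ⟨q, hq, hzq⟩
      obtain ⟨⟨e, he, hpe, hqe⟩, -⟩ := (hQmem q).1 hq
      exact ⟨e, he, hseg e q hpe hqe hzq⟩

theorem Reach.map {E : Type} {M : Multiset (E × E)} (f : E → E) {x y : E} (h : Reach M x y) :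
    Reach (M.map fun e => (f e.1, f e.2)) (f x) (f y) := by
  induction h with
  | refl => exact Reach.refl _ _
  | tail _ h2 ih =>
    refine ih.trans (Adj.reach ?_)
    rcases h2 with h2 | h2
    · exact Or.inl (Multiset.mem_map.2 ⟨_, h2, rfl⟩)
    · exact Or.inr (Multiset.mem_map.2 ⟨_, h2, rfl⟩)

theorem exists_pos_le_multiset {α : Type} (M : Multiset α) (g : α → ℝ) (hg : ∀ a ∈ M, 0 < g a) :
    ∃ η > 0, ∀ a ∈ M, η ≤ g a := by
  induction M using Multiset.induction_on with
  | empty => exact ⟨1, one_pos, by simp⟩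
  | cons a M ih =>
    obtain ⟨η, h1, h2⟩ := ih fun b hb => hg b (by simp [hb])
    refine ⟨min η (g a), lt_min h1 (hg a (by simp)), fun b hb => ?_⟩
    rcases Multiset.mem_cons.1 hb with rfl | hb
    · exact min_le_right _ _
    · exact (min_le_left _ _).trans (h2 b hb)

theorem OptNet.node_mem_ball (h : OptNet A v t) {p : EuclideanSpace ℝ (Fin d)} (hpA : p ∉ A)
    (hp : t.hasNode p) : p ∈ ball (0 : EuclideanSpace ℝ (Fin d)) 1 := by
  classical
  set M := t.edges v with hM
  have hdeg : 3 ≤ deg p M :=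
    t.three_le_deg p v (fun h' => hpA (h' ▸ h.hv)) (by rw [h.leaves]; exact hpA) hp
  obtain ⟨e0, he0⟩ : ∃ e0, e0 ∈ M.filter (Inc p) :=
    Multiset.card_pos_iff_exists_mem.1 (by unfold deg at hdeg; omega)
  rw [Multiset.mem_filter] at he0
  have hK := h.edges_mem
  simp only [mem_closedBall, dist_zero_right] at hK
  have hp1 : ‖p‖ ≤ 1 := by
    rcases he0.2 with h1 | h1
    · rw [← h1.1]; exact (hK e0 he0.1).1
    · rw [← h1.1]; exact (hK e0 he0.1).2
  rw [mem_ball, dist_zero_right]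
  refine lt_of_le_of_ne hp1 fun hp2 => ?_
  have hpos : ∀ q : EuclideanSpace ℝ (Fin d), ‖q‖ ≤ 1 → q ≠ p → 0 < 1 - inner ℝ q p := by
    intro q hq hqp
    have h1 := norm_sub_sq_real q p
    have h2 : 0 < ‖q - p‖ := norm_pos_iff.2 (sub_ne_zero.2 hqp)
    rw [hp2] at h1
    nlinarith [norm_nonneg q]
  obtain ⟨η, hη0, hη⟩ := exists_pos_le_multiset
    ((M.map Prod.fst + M.map Prod.snd).filter fun q => q ≠ p) (fun q => 1 - inner ℝ q p) (by
      intro q hq
      simp only [Multiset.mem_filter, Multiset.mem_add, Multiset.mem_map] at hq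
      obtain ⟨⟨e, he, rfl⟩ | ⟨e, he, rfl⟩, h2⟩ := hq
      · exact hpos _ (hK e he).1 h2
      · exact hpos _ (hK e he).2 h2)
  set f : EuclideanSpace ℝ (Fin d) → EuclideanSpace ℝ (Fin d) :=
    fun x => if x = p then (1 - η) • p else x with hf
  have hfp : f p = (1 - η) • p := by simp [hf]
  have hfq : ∀ q, q ≠ p → f q = q := fun q hq => by simp [hf, hq]
  have hlt : ∀ q : EuclideanSpace ℝ (Fin d), η ≤ 1 - inner ℝ q p →
      dist q ((1 - η) • p) < dist q p := by
    intro q hq
    rw [dist_eq_norm, dist_eq_norm, ← sq_lt_sq₀ (norm_nonneg _) (norm_nonneg _),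
      norm_sub_sq_real, norm_sub_sq_real, real_inner_smul_right, norm_smul, hp2,
      Real.norm_eq_abs, mul_one, sq_abs]
    nlinarith
  have hinc : ∀ e ∈ M, Inc p e → dist (f e.1) (f e.2) < dist e.1 e.2 := by
    rintro e he (⟨h1, h2⟩ | ⟨h1, h2⟩)
    · rw [h1, hfp, hfq _ h2, dist_comm, dist_comm p]
      exact hlt _ (hη _ (by
        simp only [Multiset.mem_filter, Multiset.mem_add, Multiset.mem_map]
        exact ⟨Or.inr ⟨e, he, rfl⟩, h2⟩))
    · rw [h1, hfp, hfq _ h2]
      exact hlt _ (hη _ (by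
        simp only [Multiset.mem_filter, Multiset.mem_add, Multiset.mem_map]
        exact ⟨Or.inl ⟨e, he, rfl⟩, h2⟩))
  have hfv : f v = v := hfq v fun h' => hpA (h' ▸ h.hv)
  have h1 := h.replace (N := M.map fun e => (f e.1, f e.2)) (by
      intro a ha
      have := (h.reach ha).map f
      rwa [hfv, hfq a (fun h' => hpA (h' ▸ ha))] at this)
    (by
      intro e' he'
      obtain ⟨e, he, rfl⟩ := Multiset.mem_map.1 he'
      have := (t.reach_edges v e he).map f
      rwa [hfv] at this)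
    (by
      intro h0
      rw [Multiset.map_eq_zero] at h0
      rw [h0] at he0
      simp at he0)
  have h2 : len (M.map fun e => (f e.1, f e.2)) < len M := by
    unfold len
    rw [Multiset.map_map]
    refine Multiset.sum_lt_sum ?_ ⟨e0, he0.1, hinc e0 he0.1 he0.2⟩
    intro e he
    by_cases hi : Inc p e
    · exact (hinc e he hi).le
    · simp only [Function.comp]
      by_cases h3 : e.1 = p
      · have h4 : e.2 = p := by
          by_contra h4
          exact hi (Or.inl ⟨h3, h4⟩)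
        rw [h3, h4]; simp
      · have h4 : e.2 ≠ p := fun h4 => hi (Or.inr ⟨h4, h3⟩)
        rw [hfq _ h3, hfq _ h4]
  linarith

theorem adj_split {E : Type} [MetricSpace E] {M : Multiset (E × E)} {x y : E} (h : Adj M x y) :
    ∃ e ∈ M, dist e.1 e.2 = dist x y ∧ ((e.1 = x ∧ e.2 = y) ∨ (e.1 = y ∧ e.2 = x)) := by
  rcases h with h | h
  · exact ⟨_, h, rfl, Or.inl ⟨rfl, rfl⟩⟩
  · exact ⟨_, h, dist_comm _ _, Or.inr ⟨rfl, rfl⟩⟩

theorem OptNet.not_two_sides (h : OptNet A v t) {a b c o : EuclideanSpace ℝ (Fin d)}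
    (hb : b ∈ A) (hac : a ≠ c) (hab : a ≠ b)
    (hlen : dist o a + dist o b + dist o c < dist a b + dist b c)
    (h1 : Adj (t.edges v) a b) (h2 : Adj (t.edges v) b c) : False := by
  obtain ⟨e1, he1, hd1, hc1⟩ := adj_split h1
  obtain ⟨e2, he2, hd2, hc2⟩ := adj_split h2
  have hne : e1 ≠ e2 := by
    rintro rfl
    rcases hc1 with ⟨h3, h4⟩ | ⟨h3, h4⟩ <;> rcases hc2 with ⟨h5, h6⟩ | ⟨h5, h6⟩
    · exact hab (h3.symm.trans h5)
    · exact hac (h3.symm.trans h5)
    · exact hac (h4.symm.trans h6)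
    · exact hab (h4.symm.trans h6)
  obtain ⟨R, hR⟩ := exists_cons_cons he1 he2 hne
  set N := (o, a) ::ₘ (o, b) ::ₘ (o, c) ::ₘ R with hN
  have ra : Reach N o a := reach_of_mem (e := (o, a)) (by simp [hN])
  have rb : Reach N o b := reach_of_mem (e := (o, b)) (by simp [hN])
  have rc : Reach N o c := reach_of_mem (e := (o, c)) (by simp [hN])
  have hall : ∀ e ∈ t.edges v, Reach N e.1 e.2 := by
    intro e he
    rw [hR] at he
    simp only [Multiset.mem_cons] at he
    rcases he with rfl | rfl | he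
    · rcases hc1 with ⟨h3, h4⟩ | ⟨h3, h4⟩ <;> rw [h3, h4]
      · exact ra.symm.trans rb
      · exact rb.symm.trans ra
    · rcases hc2 with ⟨h3, h4⟩ | ⟨h3, h4⟩ <;> rw [h3, h4]
      · exact rb.symm.trans rc
      · exact rc.symm.trans rb
    · exact reach_of_mem (by simp [hN, he])
  have hvo : Reach N v o := ((h.reach hb).of_forall hall).trans rb.symm
  have h3 := h.replace (N := N) (fun a ha => (h.reach ha).of_forall hall) (by
    intro e he
    simp only [hN, Multiset.mem_cons] at he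
    rcases he with rfl | rfl | rfl | he
    · exact hvo
    · exact hvo
    · exact hvo
    · exact (t.reach_edges v e (by rw [hR]; simp [he])).of_forall hall) (by simp [hN])
  rw [hR, hN] at h3
  simp only [len_cons] at h3
  linarith

theorem OptNet.not_isolated (h : OptNet A v t) {a b : EuclideanSpace ℝ (Fin d)}
    (ha : a ∈ A) (hb : b ∈ A) (hab : a ≠ b)
    (hfar : ∀ x, x ≠ a → Adj (t.edges v) a x → dist a b < dist a x) : False := by
  obtain ⟨x, hxa, hadj, hx⟩ := last_exit hab ((h.reach ha).symm.trans (h.reach hb))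
  obtain ⟨e1, he1, hd1, hc1⟩ := adj_split hadj
  obtain ⟨R, hR⟩ := Multiset.exists_cons_of_mem he1
  set N := (a, b) ::ₘ R with hN
  have rab : Reach N a b := reach_of_mem (e := (a, b)) (by simp [hN])
  have rxb : Reach N x b := hx N (by
    intro e he h1 h2
    rw [hR] at he
    rcases Multiset.mem_cons.1 he with rfl | he
    · rcases hc1 with ⟨h3, -⟩ | ⟨-, h3⟩
      · exact absurd h3 h1
      · exact absurd h3 h2
    · simp [hN, he])
  have hall : ∀ e ∈ t.edges v, Reach N e.1 e.2 := by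
    intro e he
    rw [hR] at he
    rcases Multiset.mem_cons.1 he with rfl | he
    · rcases hc1 with ⟨h3, h4⟩ | ⟨h3, h4⟩ <;> rw [h3, h4]
      · exact rab.trans rxb.symm
      · exact rxb.trans rab.symm
    · exact reach_of_mem (by simp [hN, he])
  have h3 := h.replace (N := N) (fun a ha => (h.reach ha).of_forall hall) (by
    intro e he
    simp only [hN, Multiset.mem_cons] at he
    rcases he with rfl | he
    · exact (h.reach ha).of_forall hall
    · exact (t.reach_edges v e (by rw [hR]; simp [he])).of_forall hall) (by simp [hN])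
  rw [hR, hN] at h3
  simp only [len_cons] at h3
  linarith [hfar x hxa hadj]

theorem OptNet.cluster (h : OptNet A v t) {a b c o : EuclideanSpace ℝ (Fin d)} {r s : ℝ}
    (ha : a ∈ A) (hb : b ∈ A) (hc : c ∈ A) (hr : 0 < r) (hs : 3 * r < 2 * s)
    (hoa : dist o a ≤ r) (hob : dist o b ≤ r) (hoc : dist o c ≤ r)
    (hab : s ≤ dist a b) (hbc : s ≤ dist b c) (hca : s ≤ dist c a)
    (hA : ∀ x ∈ A, x ∈ ball o (4 * r) → x = a ∨ x = b ∨ x = c) :
    ∃ p ∈ ball o (4 * r), p ∉ A ∧ t.hasNode p := by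
  by_contra hcon
  push Not at hcon
  have hend : ∀ y x, Adj (t.edges v) y x → x ∈ ball o (4 * r) → x = a ∨ x = b ∨ x = c := by
    intro y x hyx hx
    apply hA x _ hx
    by_contra hxA
    have h1 := hcon x hx hxA
    rcases hyx with h2 | h2
    · rcases (t.endpoint_cases v _ h2).2 with h3 | h3
      · rw [h.leaves] at h3; exact hxA h3
      · exact h1 h3
    · rcases (t.endpoint_cases v _ h2).1 with h3 | h3
      · exact hxA (by simp only at h3; rw [h3]; exact h.hv)
      · exact h1 h3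
  have hs0 : 0 < s := by linarith
  have nab : a ≠ b := by rintro rfl; rw [dist_self] at hab; linarith
  have nbc : b ≠ c := by rintro rfl; rw [dist_self] at hbc; linarith
  have nca : c ≠ a := by rintro rfl; rw [dist_self] at hca; linarith
  have iso : ∀ a' b' c' : EuclideanSpace ℝ (Fin d), a' ∈ A → b' ∈ A → a' ≠ b' →
      dist o a' ≤ r → dist o b' ≤ r → (∀ x, x = a ∨ x = b ∨ x = c → x = a' ∨ x = b' ∨ x = c') →
      ¬ Adj (t.edges v) a' b' → ¬ Adj (t.edges v) a' c' → False := by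
    intro a' b' c' ha' hb' hne h1 h2 hperm n1 n2
    refine h.not_isolated ha' hb' hne fun x hx hadj => ?_
    have hxb : x ∉ ball o (4 * r) := by
      intro hxb
      rcases hperm x (hend a' x hadj hxb) with h3 | h3 | h3
      · exact hx h3
      · exact n1 (h3 ▸ hadj)
      · exact n2 (h3 ▸ hadj)
    rw [mem_ball, not_lt] at hxb
    have e1 := dist_triangle_left a' b' o
    have e2 := dist_triangle x a' o
    rw [dist_comm a' o, dist_comm x a'] at e2
    linarith
  by_cases h1 : Adj (t.edges v) a b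
  · by_cases h2 : Adj (t.edges v) b c
    · exact h.not_two_sides (o := o) hb nca.symm nab (by linarith) h1 h2
    · by_cases h3 : Adj (t.edges v) c a
      · exact h.not_two_sides (o := o) ha nbc.symm nca (by linarith) h3 h1
      · exact iso c a b hc ha nca hoc hoa (by tauto) h3 (fun h' => h2 h'.symm)
  · by_cases h2 : Adj (t.edges v) b c
    · by_cases h3 : Adj (t.edges v) c a
      · exact h.not_two_sides (o := o) hc nab.symm nbc (by linarith) h2 h3
      · exact iso a b c ha hb nab hoa hob (by tauto) h1 (fun h' => h3 h'.symm)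
    · exact iso b c a hb hc nbc hob hoc (by tauto) h2 (fun h' => h1 h'.symm)

end Pool.Agent.Lib.MP_8790b5_co
end

-- part Pool.Agent.Lib.MP_8790b5_co.ManyBranch
section

open MeasureTheory Metric Set
open scoped ENNReal NNReal

namespace Pool.Agent.Lib.MP_8790b5_co

noncomputable def tri {d : ℕ} (hd : 3 ≤ d) (h r x y α β : ℝ) : EuclideanSpace ℝ (Fin d) :=
  emb hd (h * x - r * α * y) (h * y + r * α * x) (r * β)

theorem norm_tri {d : ℕ} (hd : 3 ≤ d) {h r x y α β : ℝ} (h1 : h ^ 2 + r ^ 2 = 1)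
    (h2 : x ^ 2 + y ^ 2 = 1) (h3 : α ^ 2 + β ^ 2 = 1) : ‖tri hd h r x y α β‖ = 1 := by
  apply norm_emb_eq_one
  linear_combination (h ^ 2 + r ^ 2 * α ^ 2) * h2 + r ^ 2 * h3 + h1

theorem dist_tri_sq {d : ℕ} (hd : 3 ≤ d) {h r x y : ℝ} (h2 : x ^ 2 + y ^ 2 = 1) (α β α' β' : ℝ) :
    dist (tri hd h r x y α β) (tri hd h r x y α' β') ^ 2 =
      r ^ 2 * ((α - α') ^ 2 + (β - β') ^ 2) := by
  rw [tri, tri, dist_emb_sq]
  linear_combination (r ^ 2 * (α - α') ^ 2) * h2

theorem dist_tri_center {d : ℕ} (hd : 3 ≤ d) {h r x y α β : ℝ} (hr : 0 ≤ r)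
    (h2 : x ^ 2 + y ^ 2 = 1) (h3 : α ^ 2 + β ^ 2 = 1) :
    dist (tri hd h r x y 0 0) (tri hd h r x y α β) ≤ r := by
  rw [← sq_le_sq₀ dist_nonneg hr, dist_tri_sq hd h2]
  apply le_of_eq
  linear_combination r ^ 2 * h3

theorem le_dist_tri {d : ℕ} (hd : 3 ≤ d) {h r x y α β α' β' : ℝ}
    (h2 : x ^ 2 + y ^ 2 = 1) (h3 : (8 / 5) ^ 2 ≤ (α - α') ^ 2 + (β - β') ^ 2) :
    8 / 5 * r ≤ dist (tri hd h r x y α β) (tri hd h r x y α' β') := by
  refine (abs_le_of_sq_le_sq' ?_ dist_nonneg).2
  rw [dist_tri_sq hd h2]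
  nlinarith [sq_nonneg r]

theorem nat_le_steinerBallBranching {d : ℕ} (hd : 3 ≤ d) (n : ℕ) :
    (n : ℕ∞) ≤ steinerBallBranching d := by
  classical
  rcases Nat.eq_zero_or_pos n with rfl | hn
  · simp
  have hn1 : (1 : ℝ) ≤ n := by exact_mod_cast hn
  have hn0 : (0 : ℝ) < n := by linarith
  set r : ℝ := 1 / (16 * n) with hr
  have hr0 : 0 < r := by positivity
  have hr1 : r ≤ 1 / 16 := one_div_le_one_div_of_le (by norm_num) (by linarith)
  set h : ℝ := √(1 - r ^ 2) with hh
  have hhr : h ^ 2 + r ^ 2 = 1 := by rw [hh, Real.sq_sqrt (by nlinarith)]; ring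
  set x : ℕ → ℝ := fun j => j / n with hx
  set y : ℕ → ℝ := fun j => √(1 - x j ^ 2) with hy
  have hxy : ∀ j, j < n → x j ^ 2 + y j ^ 2 = 1 := by
    intro j hj
    have h1 : x j ≤ 1 := by
      simp only [hx]; rw [div_le_one hn0]; exact_mod_cast hj.le
    have h2 : 0 ≤ x j := by simp only [hx]; positivity
    simp only [hy]
    rw [Real.sq_sqrt (by nlinarith)]; ring
  set o : ℕ → EuclideanSpace ℝ (Fin d) := fun j => tri hd h r (x j) (y j) 0 0 with ho
  set a : ℕ → EuclideanSpace ℝ (Fin d) := fun j => tri hd h r (x j) (y j) 0 1 with ha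
  set b : ℕ → EuclideanSpace ℝ (Fin d) := fun j => tri hd h r (x j) (y j) (4 / 5) (-3 / 5) with hb
  set c : ℕ → EuclideanSpace ℝ (Fin d) := fun j => tri hd h r (x j) (y j) (-4 / 5) (-3 / 5) with hc
  have hoa : ∀ j, j < n → dist (o j) (a j) ≤ r := fun j hj =>
    dist_tri_center hd hr0.le (hxy j hj) (by norm_num)
  have hob : ∀ j, j < n → dist (o j) (b j) ≤ r := fun j hj =>
    dist_tri_center hd hr0.le (hxy j hj) (by norm_num)
  have hoc : ∀ j, j < n → dist (o j) (c j) ≤ r := fun j hj =>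
    dist_tri_center hd hr0.le (hxy j hj) (by norm_num)
  have hoo : ∀ j k, j ≠ k → 8 * r ≤ dist (o j) (o k) := by
    intro j k hjk
    simp only [ho, tri]
    apply le_dist_emb
    have h1 := one_le_sq_sub_nat hjk
    have h2 : (h * x j - r * 0 * y j - (h * x k - r * 0 * y k)) ^ 2 =
        h ^ 2 * ((j : ℝ) - k) ^ 2 * (16 * r) ^ 2 := by
      simp only [hx, hr]; field_simp; ring
    rw [h2]
    have h3 : 1 / 4 ≤ h ^ 2 := by nlinarith
    have h4 : 1 / 4 ≤ h ^ 2 * ((j : ℝ) - k) ^ 2 := by nlinarith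
    nlinarith [sq_nonneg (h * y j + r * 0 * x j - (h * y k + r * 0 * x k)), sq_nonneg r,
      sq_nonneg (r * 0 - r * 0)]
  set A : Finset (EuclideanSpace ℝ (Fin d)) :=
    (Finset.range n).biUnion fun j => {a j, b j, c j} with hA
  have hAmem : ∀ z, z ∈ A ↔ ∃ j, j < n ∧ (z = a j ∨ z = b j ∨ z = c j) := by
    intro z; simp [hA]
  have hA1 : ∀ z ∈ A, ‖z‖ = 1 := by
    intro z hz
    obtain ⟨j, hj, rfl | rfl | rfl⟩ := (hAmem z).1 hz <;>
      exact norm_tri hd hhr (hxy j hj) (by norm_num)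
  obtain ⟨t, ht⟩ := exists_optNet (fun z hz => (hA1 z hz).le)
    ((hAmem (a 0)).2 ⟨0, hn, Or.inl rfl⟩)
  have hcl : ∀ j, j < n → ∃ p ∈ ball (o j) (4 * r), p ∉ A ∧ t.hasNode p := by
    intro j hj
    refine ht.cluster (s := 8 / 5 * r) ((hAmem _).2 ⟨j, hj, Or.inl rfl⟩)
      ((hAmem _).2 ⟨j, hj, Or.inr (Or.inl rfl)⟩) ((hAmem _).2 ⟨j, hj, Or.inr (Or.inr rfl)⟩)
      hr0 (by linarith) (hoa j hj) (hob j hj) (hoc j hj)
      (le_dist_tri hd (hxy j hj) (by norm_num)) (le_dist_tri hd (hxy j hj) (by norm_num))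
      (le_dist_tri hd (hxy j hj) (by norm_num)) ?_
    intro z hz hzb
    obtain ⟨k, hk, hzk⟩ := (hAmem z).1 hz
    by_cases hkj : k = j
    · rw [← hkj]; exact hzk
    · exfalso
      have h1 : dist (o k) z ≤ r := by
        rcases hzk with rfl | rfl | rfl
        · exact hoa k hk
        · exact hob k hk
        · exact hoc k hk
      have h2 := hoo k j hkj
      have h3 := dist_triangle (o k) z (o j)
      rw [mem_ball] at hzb
      linarith
  choose! p hp hpA hpn using hcl
  unfold steinerBallBranching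
  refine le_iSup_of_le (A : Set (EuclideanSpace ℝ (Fin d))) (le_iSup_of_le (car (t.edges (a 0)))
    (le_iSup_of_le 0 (le_iSup_of_le 1 (le_iSup_of_le A.finite_toSet.isCompact
    (le_iSup_of_le ht.isSteiner (le_iSup_of_le one_pos (le_iSup_of_le ?_ ?_)))))))
  · rw [eq_empty_iff_forall_notMem]
    rintro z ⟨hz, hb⟩
    have := hA1 z hz
    simp only [mem_ball, dist_zero_right] at hb
    linarith
  · have hinj : InjOn p (Finset.range n : Set ℕ) := by
      intro j hj k hk hjk
      simp only [Finset.coe_range, mem_Iio] at hj hk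
      by_contra hne
      have h1 := hoo j k hne
      have h2 := hp j hj
      have h3 := hp k hk
      rw [← hjk] at h3
      rw [mem_ball] at h2 h3
      have h4 := dist_triangle_left (o j) (o k) (p j)
      linarith
    have h1 : (p '' (Finset.range n : Set ℕ)).encard = n := by
      rw [hinj.encard_image, encard_coe_eq_coe_finsetCard, Finset.card_range]
    rw [← h1]
    apply encard_le_encard
    rintro _ ⟨j, hj, rfl⟩
    simp only [Finset.coe_range, mem_Iio] at hj
    exact ⟨ht.node_mem_ball (hpA j hj) (hpn j hj), ht.branching (hpA j hj) (hpn j hj)⟩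

theorem steinerBallBranching_high {d : ℕ} (hd : 3 ≤ d) : steinerBallBranching d = ⊤ :=
  ENat.eq_top_iff_forall_ge.2 (nat_le_steinerBallBranching hd)

end Pool.Agent.Lib.MP_8790b5_co
end
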