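import Mathlib
import Pool.Agent.Lib.MP_8790b5_co.High

open MeasureTheory Metric Set
open scoped ENNReal NNReal

namespace Pool.Agent.Lib.MP_8790b5_co

def sector (ρ σ : ℝ) : Set ℂ := {z | 0 < z.re ∧ |z.im| < σ * ‖z‖ ∧ ρ < ‖z‖}

theorem isOpen_sector (ρ σ : ℝ) : IsOpen (sector ρ σ) := by
  refine (isOpen_lt continuous_const Complex.continuous_re).inter
    ((isOpen_lt (f := fun z : ℂ => |z.im|) (g := fun z : ℂ => σ * ‖z‖)
      (by fun_prop) (by fun_prop)).inter (isOpen_lt continuous_const continuous_norm))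

noncomputable def cpt (s : ℝ) : ℂ := ⟨√(1 - s ^ 2), s⟩

theorem norm_cpt {s : ℝ} (hs : |s| < 1) : ‖cpt s‖ = 1 := by
  have h : s ^ 2 < 1 := by rwa [sq_lt_one_iff_abs_lt_one]
  rw [Complex.norm_eq_sqrt_sq_add_sq]
  simp only [cpt]
  rw [Real.sq_sqrt (by linarith)]
  simp

theorem re_cpt_pos {s : ℝ} (hs : |s| < 1) : 0 < (cpt s).re := by
  have h : s ^ 2 < 1 := by rwa [sq_lt_one_iff_abs_lt_one]
  exact Real.sqrt_pos.2 (by linarith)

theorem sector_lower {S : Set ℂ} (hS : IsPreconnected S) {ρ σ g : ℝ} (hρ0 : 0 < ρ)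
    (hσ1 : σ < 1) (hg : 0 < g) (hneg : (-1 : ℂ) ∈ S)
    (hA : ∀ j : ℤ, |j * g| < 1 → cpt (j * g) ∈ S) :
    min (ENNReal.ofReal (1 - ρ)) (ENNReal.ofReal (ρ * (2 * σ - g))) ≤ μH[1] (S ∩ sector ρ σ) := by
  set X : Set ℝ := {s | s ∈ Ioo (-σ) σ ∧ ∀ z ∈ S, 0 < z.re → ρ < ‖z‖ → z.im ≠ s * ‖z‖} with hX
  by_cases hcase : ∃ s1 ∈ X, ∃ s2 ∈ X, s1 + g < s2
  · obtain ⟨s1, hs1, s2, hs2, h12⟩ := hcase
    refine (min_le_left _ _).trans ?_
    set j : ℤ := ⌊s1 / g⌋ + 1 with hj
    have hj1 : s1 < j * g := by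
      have := Int.lt_floor_add_one (s1 / g)
      rw [div_lt_iff₀ hg] at this
      rw [hj]; push_cast; exact this
    have hj2 : j * g < s2 := by
      have := Int.floor_le (s1 / g)
      rw [le_div_iff₀ hg] at this
      rw [hj]; push_cast; linarith
    have hjabs : |j * g| < 1 := by
      rw [abs_lt]; constructor
      · linarith [hs1.1.1]
      · linarith [hs2.1.2]
    have hI : Ioo ρ 1 ⊆ (fun z : ℂ => ‖z‖) '' (S ∩ sector ρ σ) := by
      intro t ht
      by_contra hcon
      set U : Set ℂ := {z | 0 < z.re ∧ t < ‖z‖ ∧ s1 * ‖z‖ < z.im ∧ z.im < s2 * ‖z‖} with hU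
      have hUo : IsOpen U :=
        (isOpen_lt continuous_const Complex.continuous_re).inter
          ((isOpen_lt continuous_const continuous_norm).inter
          ((isOpen_lt (f := fun z : ℂ => s1 * ‖z‖) (g := fun z : ℂ => z.im)
            (by fun_prop) (by fun_prop)).inter
          (isOpen_lt (f := fun z : ℂ => z.im) (g := fun z : ℂ => s2 * ‖z‖)
            (by fun_prop) (by fun_prop))))
      have hcl : closure U ⊆
          {z : ℂ | 0 ≤ z.re ∧ t ≤ ‖z‖ ∧ s1 * ‖z‖ ≤ z.im ∧ z.im ≤ s2 * ‖z‖} := by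
        refine closure_minimal (fun z hz => ⟨hz.1.le, hz.2.1.le, hz.2.2.1.le, hz.2.2.2.le⟩) ?_
        exact (isClosed_le continuous_const Complex.continuous_re).inter
          ((isClosed_le continuous_const continuous_norm).inter
          ((isClosed_le (f := fun z : ℂ => s1 * ‖z‖) (g := fun z : ℂ => z.im)
            (by fun_prop) (by fun_prop)).inter
            (isClosed_le (f := fun z : ℂ => z.im) (g := fun z : ℂ => s2 * ‖z‖)
            (by fun_prop) (by fun_prop))))
      have hSU : S ⊆ U := by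
        refine hS.subset_of_closure_inter_subset hUo ⟨cpt (j * g), hA j hjabs, ?_⟩ ?_
        · refine ⟨re_cpt_pos hjabs, ?_, ?_, ?_⟩
          · rw [norm_cpt hjabs]; exact ht.2
          · rw [norm_cpt hjabs, mul_one]; exact hj1
          · rw [norm_cpt hjabs, mul_one]; exact hj2
        · rintro z ⟨hz, hzS⟩
          obtain ⟨h1, h2, h3, h4⟩ := hcl hz
          have hρz : ρ < ‖z‖ := ht.1.trans_le h2
          have hz0 : 0 < ‖z‖ := hρ0.trans hρz
          have habs : |z.im| < σ * ‖z‖ := by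
            rw [abs_lt]; constructor
            · nlinarith [hs1.1.1]
            · nlinarith [hs2.1.2]
          have hre : 0 < z.re := by
            refine lt_of_le_of_ne h1 fun h0 => ?_
            have h5 : ‖z‖ = |z.im| := by
              rw [Complex.norm_eq_sqrt_sq_add_sq, ← h0]
              simp [Real.sqrt_sq_eq_abs]
            nlinarith
          refine ⟨hre, lt_of_le_of_ne h2 fun h => hcon ⟨z, ⟨hzS, hre, habs, hρz⟩, h.symm⟩,
            lt_of_le_of_ne h3 (hs1.2 z hzS hre hρz).symm,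
            lt_of_le_of_ne h4 (hs2.2 z hzS hre hρz)⟩
      have := (hSU hneg).1
      norm_num at this
    have := vol_le_of_lip (lipschitzWith_one_norm.lipschitzOnWith (s := S ∩ sector ρ σ)) hI
    simpa using this
  · push Not at hcase
    refine (min_le_right _ _).trans ?_
    set K : ℝ≥0 := ⟨ρ⁻¹, by positivity⟩ with hK
    have hlip : LipschitzWith K (fun z : ℂ => (proj (ρ⁻¹ • z)).im) := by
      have h1 : LipschitzWith 1 (fun z : ℂ => z.im) :=
        LipschitzWith.of_dist_le_mul fun z w => by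
          rw [NNReal.coe_one, one_mul, Real.dist_eq, Complex.dist_eq, ← Complex.sub_im]
          exact Complex.abs_im_le_norm _
      have h2 : LipschitzWith K (fun z : ℂ => ρ⁻¹ • z) :=
        LipschitzWith.of_dist_le_mul fun z w => by
          rw [dist_smul₀, Real.norm_of_nonneg (by positivity)]
          rfl
      have h3 := h1.comp (lipschitz_proj.comp h2)
      rw [one_mul, one_mul] at h3
      exact h3
    have hI : Ioo (-σ) σ \ X ⊆ (fun z : ℂ => (proj (ρ⁻¹ • z)).im) '' (S ∩ sector ρ σ) := by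
      rintro s ⟨hs, hsX⟩
      simp only [hX, mem_ofPred_eq, not_and, not_forall] at hsX
      obtain ⟨z, hzS, hre, hρz, him⟩ := hsX hs
      push Not at him
      have hz0 : 0 < ‖z‖ := hρ0.trans hρz
      refine ⟨z, ⟨hzS, hre, ?_, hρz⟩, ?_⟩
      · rw [him, abs_mul, abs_of_pos hz0]
        exact mul_lt_mul_of_pos_right (abs_lt.2 hs) hz0
      · have h1 : ‖ρ⁻¹ • z‖ = ρ⁻¹ * ‖z‖ := by
          rw [norm_smul, Real.norm_of_nonneg (by positivity)]
        have h2 : 1 ≤ ρ⁻¹ * ‖z‖ := by
          rw [inv_mul_eq_div, one_le_div hρ0]; exact hρz.le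
        simp only [proj]
        rw [h1, max_eq_right h2, smul_smul, Complex.smul_im, him, smul_eq_mul]
        field_simp
    have h1 := vol_le_of_lip hlip.lipschitzOnWith hI
    have h2 : volume X ≤ ENNReal.ofReal g := by
      refine (Real.volume_le_diam X).trans (ediam_le fun x hx y hy => ?_)
      rw [edist_dist, Real.dist_eq]
      apply ENNReal.ofReal_le_ofReal
      rw [abs_le]; constructor
      · linarith [hcase x hx y hy]
      · linarith [hcase y hy x hx]
    have h3 : ENNReal.ofReal (2 * σ) ≤ volume (Ioo (-σ) σ \ X) + volume X := by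
      have : volume (Ioo (-σ) σ) = ENNReal.ofReal (2 * σ) := by
        rw [Real.volume_Ioo]; congr 1; ring
      rw [← this]
      refine le_trans (measure_mono ?_) (measure_union_le _ _)
      intro x hx
      by_cases h : x ∈ X
      · exact Or.inr h
      · exact Or.inl ⟨hx, h⟩
    have h4 : ENNReal.ofReal (2 * σ - g) ≤ K * μH[1] (S ∩ sector ρ σ) := by
      rw [ENNReal.ofReal_sub _ hg.le, tsub_le_iff_right]
      exact h3.trans (add_le_add h1 h2)
    rw [ENNReal.ofReal_mul hρ0.le]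
    refine (mul_le_mul_right h4 _).trans ?_
    rw [← mul_assoc]
    have h5 : ENNReal.ofReal ρ * K = 1 := by
      rw [← ENNReal.ofReal_coe_nnreal, ← ENNReal.ofReal_mul hρ0.le]
      have : ρ * (K : ℝ) = 1 := mul_inv_cancel₀ hρ0.ne'
      rw [this, ENNReal.ofReal_one]
    rw [h5, one_mul]

theorem sector_re_mul {ρ σ : ℝ} (hρ : 0 < ρ) (hσ1 : σ < 1) {a b : ℂ} (ha : a ∈ sector ρ σ)
    (hb : b ∈ sector ρ σ) (hab : ‖a‖ = ‖b‖) :
    (1 - 2 * σ ^ 2) * ‖b‖ ^ 2 < (a * (starRingEnd ℂ) b).re := by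
  obtain ⟨ha1, ha2, ha3⟩ := ha
  obtain ⟨hb1, hb2, hb3⟩ := hb
  rw [hab] at ha2
  have hR : 0 < ‖b‖ := hρ.trans hb3
  have hσ0 : 0 < σ := by
    by_contra h
    push Not at h
    have := mul_nonpos_of_nonpos_of_nonneg h hR.le
    linarith [abs_nonneg b.im]
  have e1 : a.re ^ 2 + a.im ^ 2 = ‖b‖ ^ 2 := by
    rw [← hab, Complex.sq_norm, Complex.normSq_apply]; ring
  have e2 : b.re ^ 2 + b.im ^ 2 = ‖b‖ ^ 2 := by
    rw [Complex.sq_norm, Complex.normSq_apply]; ring
  set R := ‖b‖
  have i1 : a.im ^ 2 < (σ * R) ^ 2 := by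
    rw [← sq_abs]; exact pow_lt_pow_left₀ ha2 (abs_nonneg _) two_ne_zero
  have i2 : b.im ^ 2 < (σ * R) ^ 2 := by
    rw [← sq_abs]; exact pow_lt_pow_left₀ hb2 (abs_nonneg _) two_ne_zero
  have hc : 0 < (1 - σ ^ 2) * R ^ 2 := by
    have : 0 < 1 - σ ^ 2 := by nlinarith
    positivity
  have r1 : (1 - σ ^ 2) * R ^ 2 < a.re ^ 2 := by nlinarith
  have r2 : (1 - σ ^ 2) * R ^ 2 < b.re ^ 2 := by nlinarith
  have r3 : (1 - σ ^ 2) * R ^ 2 < a.re * b.re := by
    refine lt_of_pow_lt_pow_left₀ 2 (by positivity) ?_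
    rw [mul_pow a.re, sq ((1 - σ ^ 2) * R ^ 2)]
    exact mul_lt_mul'' r1 r2 hc.le hc.le
  have r4 : -(σ * R) ^ 2 < a.im * b.im := by nlinarith [sq_nonneg (a.im + b.im)]
  simp only [Complex.mul_re, Complex.conj_re, Complex.conj_im]
  nlinarith

theorem cos_mul_le {N j : ℕ} (hN : 2 ≤ N) (hj : 1 ≤ j) (hjN : j < N) :
    Real.cos (2 * Real.pi / N * j) ≤ Real.cos (2 * Real.pi / N) := by
  have hN0 : (0 : ℝ) < N := by exact_mod_cast (by omega : 0 < N)
  have hj1 : (1 : ℝ) ≤ j := by exact_mod_cast hj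
  have hj2 : (j : ℝ) + 1 ≤ N := by exact_mod_cast hjN
  have hw : 0 < 2 * Real.pi / N := by have := Real.pi_pos; positivity
  have hwN : 2 * Real.pi / N * N = 2 * Real.pi := by field_simp
  set w := 2 * Real.pi / N
  rcases le_total (w * j) Real.pi with h | h
  · exact Real.cos_le_cos_of_nonneg_of_le_pi hw.le h (by nlinarith)
  · rw [← Real.cos_two_pi_sub]
    exact Real.cos_le_cos_of_nonneg_of_le_pi hw.le (by linarith) (by nlinarith)

noncomputable def rot (θ : ℝ) : ℂ ≃ₗᵢ[ℝ] EuclideanSpace ℝ (Fin 2) :=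
  (rotation (Circle.exp θ)).trans Complex.orthonormalBasisOneI.repr

theorem rot_eq_iff {θ φ : ℝ} {a b : ℂ} (h : rot θ a = rot φ b) :
    (a * (starRingEnd ℂ) b).re = Real.cos (φ - θ) * ‖b‖ ^ 2 := by
  have h1 : Complex.exp (θ * Complex.I) * a = Complex.exp (φ * Complex.I) * b := by
    have := Complex.orthonormalBasisOneI.repr.injective h
    simpa [rotation_apply, Circle.coe_exp] using this
  have h2 : a = Complex.exp (((φ - θ : ℝ) : ℂ) * Complex.I) * b := by
    have h3 : Complex.exp (θ * Complex.I) ≠ 0 := Complex.exp_ne_zero _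
    apply mul_left_cancel₀ h3
    rw [h1, ← mul_assoc, ← Complex.exp_add]
    congr 2
    push_cast; ring
  rw [h2, mul_assoc, Complex.mul_conj, Complex.normSq_eq_norm_sq, Complex.re_mul_ofReal,
    Complex.exp_ofReal_mul_I_re]

theorem plane_lower_aux {N m : ℕ} (hN : 3 ≤ N) (hm : 1 ≤ m) {ρ : ℝ} (hρ0 : 0 < ρ) :
    (N : ℝ≥0∞) * min (ENNReal.ofReal (1 - ρ))
      (ENNReal.ofReal (ρ * (2 * Real.sin (Real.pi / N) - 1 / m))) ≤ steinerBallLength 2 := by
  classical
  have hN0 : (0 : ℝ) < N := by exact_mod_cast (by omega : 0 < N)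
  have hN3 : (3 : ℝ) ≤ N := by exact_mod_cast hN
  have hm0 : (0 : ℝ) < m := by exact_mod_cast (by omega : 0 < m)
  set σ := Real.sin (Real.pi / N) with hσ
  have hσ1 : σ < 1 := by
    rw [hσ, ← Real.sin_pi_div_two]
    have := Real.pi_pos
    refine Real.sin_lt_sin_of_lt_of_le_pi_div_two ?_ le_rfl ?_
    · have : 0 < Real.pi / N := by positivity
      linarith
    · exact div_lt_div_of_pos_left this two_pos (by linarith)
  set θ : ℕ → ℝ := fun k => 2 * Real.pi / N * k with hθ
  set B : Finset ℂ := insert (-1) ((Finset.Ioo (-(m : ℤ)) m).image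
    fun j : ℤ => cpt (j * (1 / m))) with hB
  have hjm : ∀ j : ℤ, |(j : ℝ) * (1 / m)| < 1 ↔ j ∈ Finset.Ioo (-(m : ℤ)) m := by
    intro j
    rw [mul_one_div, abs_div, abs_of_pos hm0, div_lt_one hm0, abs_lt, Finset.mem_Ioo]
    constructor
    · rintro ⟨h1, h2⟩
      exact ⟨by exact_mod_cast h1, by exact_mod_cast h2⟩
    · rintro ⟨h1, h2⟩
      exact ⟨by exact_mod_cast h1, by exact_mod_cast h2⟩
  refine le_steinerBallLength
    (A := (Finset.range N).biUnion fun k => B.image (rot (θ k))) ?_ ?_ ?_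
  · intro a ha
    simp only [Finset.mem_biUnion, Finset.mem_image] at ha
    obtain ⟨k, -, z, hz, rfl⟩ := ha
    rw [LinearIsometryEquiv.norm_map]
    simp only [hB, Finset.mem_insert, Finset.mem_image] at hz
    rcases hz with rfl | ⟨j, hj, rfl⟩
    · simp
    · exact norm_cpt ((hjm j).2 hj)
  · refine ⟨rot (θ 0) (-1), ?_⟩
    simp only [Finset.mem_biUnion, Finset.mem_image]
    exact ⟨0, by simp; omega, -1, by simp [hB], rfl⟩
  · intro S hS hAS
    have hmem : ∀ k ∈ Finset.range N, ∀ z ∈ B, rot (θ k) z ∈ S := by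
      intro k hk z hz
      apply hAS
      simp only [Finset.coe_biUnion, Finset.coe_image, mem_iUnion]
      exact ⟨k, hk, z, hz, rfl⟩
    have h1 := sum_inter_le μH[1] S (Finset.range N) (fun k => rot (θ k) '' sector ρ σ)
      (fun k _ => ((rot (θ k)).toHomeomorph.isOpenMap _ (isOpen_sector ρ σ)).measurableSet) (by
        have key : ∀ k l : ℕ, k < l → l < N →
            Disjoint (rot (θ k) '' sector ρ σ) (rot (θ l) '' sector ρ σ) := by
          intro k l hkl hl
          rw [Set.disjoint_left]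
          rintro _ ⟨a, ha, rfl⟩ ⟨b, hb, hab⟩
          have hn : ‖a‖ = ‖b‖ := by
            rw [← (rot (θ k)).norm_map a, ← hab, LinearIsometryEquiv.norm_map]
          have e1 := sector_re_mul hρ0 hσ1 ha hb hn
          rw [rot_eq_iff hab.symm] at e1
          have e2 : θ l - θ k = 2 * Real.pi / N * ((l - k : ℕ) : ℝ) := by
            rw [Nat.cast_sub hkl.le]; simp only [hθ]; ring
          have e3 := cos_mul_le (N := N) (j := l - k) (by omega) (by omega) (by omega)
          have e4 : Real.cos (2 * Real.pi / N) = 1 - 2 * σ ^ 2 := by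
            rw [mul_div_assoc, Real.cos_two_mul, Real.cos_sq', hσ]; ring
          rw [e2] at e1
          rw [e4] at e3
          nlinarith [sq_nonneg ‖b‖]
        intro k hk l hl hkl
        simp only [Finset.coe_range, mem_Iio] at hk hl
        rcases lt_or_gt_of_ne hkl with h | h
        · exact key k l h hl
        · exact (key l k h hk).symm)
    refine le_trans ?_ h1
    have h2 : ∀ k ∈ Finset.range N, min (ENNReal.ofReal (1 - ρ))
        (ENNReal.ofReal (ρ * (2 * σ - 1 / m))) ≤ μH[1] (S ∩ rot (θ k) '' sector ρ σ) := by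
      intro k hk
      have h3 := sector_lower (S := rot (θ k) ⁻¹' S)
        ((rot (θ k)).toHomeomorph.isPreconnected_preimage.2 hS) hρ0 hσ1 (g := 1 / m)
        (by positivity) (hmem k hk _ (by simp [hB])) (fun j hj => hmem k hk _ (by
          simp only [hB, Finset.mem_insert, Finset.mem_image]
          exact Or.inr ⟨j, (hjm j).1 hj, rfl⟩))
      refine h3.trans (le_of_eq ?_)
      rw [← (rot (θ k)).isometry.hausdorffMeasure_image (Or.inl zero_le_one),
        image_preimage_inter]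
    refine le_trans ?_ (Finset.sum_le_sum h2)
    rw [Finset.sum_const, Finset.card_range, nsmul_eq_mul]

theorem plane_lower : ENNReal.ofReal (2 * Real.pi) ≤ steinerBallLength 2 := by
  have hπ := Real.pi_pos
  have hπ4 := Real.pi_lt_four
  have hlim : Filter.Tendsto (fun n : ℕ => ENNReal.ofReal
      ((1 - 8 * (1 / (n : ℝ))) * (2 * Real.pi - (Real.pi ^ 3 / 2) * (1 / (n : ℝ)) ^ 2 - 1 / n)))
      Filter.atTop (nhds (ENNReal.ofReal (2 * Real.pi))) := by
    apply ENNReal.tendsto_ofReal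
    have h0 : Filter.Tendsto (fun n : ℕ => 1 / (n : ℝ)) Filter.atTop (nhds 0) :=
      tendsto_one_div_atTop_nhds_zero_nat
    have hc : Continuous fun x : ℝ =>
      (1 - 8 * x) * (2 * Real.pi - (Real.pi ^ 3 / 2) * x ^ 2 - x) := by fun_prop
    have := (hc.tendsto 0).comp h0
    simpa [Function.comp_def] using this
  refine le_of_tendsto hlim ?_
  filter_upwards [Filter.eventually_ge_atTop 9] with n hn
  have hn9 : (9 : ℝ) ≤ n := by exact_mod_cast hn
  have hn0 : (0 : ℝ) < n := by linarith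
  have hρ0 : 0 < 1 - 8 * (1 / (n : ℝ)) := by
    rw [mul_one_div, sub_pos, div_lt_one hn0]; linarith
  have hρ1 : 1 - 8 * (1 / (n : ℝ)) ≤ 1 := by
    have : 0 < 8 * (1 / (n : ℝ)) := by positivity
    linarith
  refine le_trans ?_ (plane_lower_aux (N := n) (m := n ^ 2) (by omega)
    (Nat.one_le_pow _ _ (by omega)) hρ0)
  have hx0 : 0 < Real.pi / n := by positivity
  have hx1 : Real.pi / n ≤ 1 := by rw [div_le_one hn0]; linarith
  have hs1 : Real.pi / n - (Real.pi / n) ^ 3 / 4 ≤ Real.sin (Real.pi / n) := by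
    have h1 := Real.sin_gt_sub_cube hx0
    have h2 : 0 < (Real.pi / n) ^ 3 := by positivity
    linarith
  have hs2 := Real.sin_le hx0.le
  set ρ := 1 - 8 * (1 / (n : ℝ)) with hρ
  have hkey : 2 * Real.pi - (Real.pi ^ 3 / 2) * (1 / (n : ℝ)) ^ 2 - 1 / n ≤
      n * (2 * Real.sin (Real.pi / n) - 1 / ((n ^ 2 : ℕ) : ℝ)) := by
    have e : 2 * Real.pi - (Real.pi ^ 3 / 2) * (1 / (n : ℝ)) ^ 2 - 1 / n =
        n * (2 * (Real.pi / n - (Real.pi / n) ^ 3 / 4) - 1 / ((n ^ 2 : ℕ) : ℝ)) := by
      push_cast; field_simp; ring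
    rw [e]
    gcongr
  rw [mul_min, le_min_iff, ← ENNReal.ofReal_natCast, ← ENNReal.ofReal_mul hn0.le,
    ← ENNReal.ofReal_mul hn0.le]
  constructor
  · apply ENNReal.ofReal_le_ofReal
    have e : (n : ℝ) * (1 - ρ) = 8 := by rw [hρ]; field_simp; ring
    rw [e]
    have h1 : 0 ≤ (Real.pi ^ 3 / 2) * (1 / (n : ℝ)) ^ 2 := by positivity
    have h2 : 0 ≤ 1 / (n : ℝ) := by positivity
    nlinarith
  · apply ENNReal.ofReal_le_ofReal
    nlinarith [mul_le_mul_of_nonneg_left hkey hρ0.le]

theorem hausdorff_circle_le (x : EuclideanSpace ℝ (Fin 2)) {r : ℝ} (hr : 0 < r) :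
    μH[1] (sphere x r) ≤ ENNReal.ofReal (2 * Real.pi * r) := by
  set e := Complex.orthonormalBasisOneI.repr with he
  have h1 : sphere x r = e '' (circleMap (e.symm x) r '' Ioc 0 (2 * Real.pi)) := by
    rw [image_circleMap_Ioc, abs_of_pos hr, LinearIsometryEquiv.image_sphere]
    simp
  rw [h1, e.isometry.hausdorffMeasure_image (Or.inl zero_le_one)]
  refine ((lipschitzWith_circleMap _ r).hausdorffMeasure_image_le zero_le_one _).trans ?_
  rw [hausdorffMeasure_real, Real.volume_Ioc, ENNReal.rpow_one, sub_zero,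
    ← ENNReal.ofReal_coe_nnreal, Real.coe_nnabs, abs_of_pos hr, ← ENNReal.ofReal_mul hr.le,
    mul_comm]

theorem steiner_ball_le_sphere {A S : Set (EuclideanSpace ℝ (Fin 2))}
    (hS : IsSteinerTree A S) {x : EuclideanSpace ℝ (Fin 2)} {r : ℝ} (hr : 0 < r)
    (hA : A ∩ ball x r = ∅) : μH[1] (S ∩ ball x r) ≤ μH[1] (sphere x r) := by
  obtain ⟨hcl, hcon, hAS, hfin, hmin⟩ := hS
  rcases (S ∩ ball x r).eq_empty_or_nonempty with h0 | ⟨y, hyS, hyB⟩
  · rw [h0]; simp
  have hsph : IsConnected (sphere x r) :=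
    isConnected_sphere (by rw [← Module.finrank_eq_rank]; simp) x hr.le
  set S' := (S \ ball x r) ∪ sphere x r with hS'
  have hcl' : IsClosed S' := (hcl.sdiff isOpen_ball).union isClosed_sphere
  have hcon' : IsConnected S' := by
    refine ⟨hsph.1.mono subset_union_right, ?_⟩
    have key : ∀ u v : Set (EuclideanSpace ℝ (Fin 2)), IsClosed u → IsClosed v → S' ⊆ u ∪ v →
        S' ∩ (u ∩ v) = ∅ → sphere x r ⊆ u → S' ⊆ u := by
      intro u v hu hv huv hdis hsu
      have h1 := (isPreconnected_iff_subset_of_disjoint_closed.1 hcon.2) (u ∪ closedBall x r)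
        (v ∩ (ball x r)ᶜ) (hu.union isClosed_closedBall) (hv.inter isOpen_ball.isClosed_compl)
        (by
          intro z hz
          by_cases hzB : z ∈ ball x r
          · exact Or.inl (Or.inr (ball_subset_closedBall hzB))
          · rcases huv (Or.inl ⟨hz, hzB⟩) with h | h
            · exact Or.inl (Or.inl h)
            · exact Or.inr ⟨h, hzB⟩)
        (by
          rw [eq_empty_iff_forall_notMem] at hdis ⊢
          rintro z ⟨hz, hz1, hzv, hzB⟩
          refine hdis z ⟨Or.inl ⟨hz, hzB⟩, ?_, hzv⟩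
          rcases hz1 with h | h
          · exact h
          · apply hsu
            rw [← closedBall_sdiff_ball]
            exact ⟨h, hzB⟩)
      rcases h1 with h1 | h1
      · rintro z (⟨hz, hzB⟩ | hz)
        · rcases h1 hz with h | h
          · exact h
          · apply hsu
            rw [← closedBall_sdiff_ball]
            exact ⟨h, hzB⟩
        · exact hsu hz
      · exact absurd hyB (h1 hyS).2
    rw [isPreconnected_iff_subset_of_disjoint_closed]
    intro u v hu hv huv hdis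
    rcases (isPreconnected_iff_subset_of_disjoint_closed.1 hsph.2) u v hu hv
      (subset_union_right.trans huv) (by
        rw [eq_empty_iff_forall_notMem] at hdis ⊢
        exact fun z hz => hdis z ⟨Or.inr hz.1, hz.2⟩) with h | h
    · exact Or.inl (key u v hu hv huv hdis h)
    · exact Or.inr (key v u hv hu (by rwa [union_comm]) (by rwa [inter_comm v u]) h)
  have h2 := hmin S' hcl' hcon' (by
    intro a ha
    refine Or.inl ⟨hAS ha, fun h => ?_⟩
    rw [eq_empty_iff_forall_notMem] at hA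
    exact hA a ⟨ha, h⟩)
  have h3 := measure_inter_add_sdiff (μ := μH[1]) S (measurableSet_ball (x := x) (ε := r))
  have h4 : μH[1] (S \ ball x r) ≠ ∞ := ((measure_mono sdiff_subset).trans_lt hfin).ne
  have h5 : μH[1] (S ∩ ball x r) + μH[1] (S \ ball x r) ≤
      μH[1] (sphere x r) + μH[1] (S \ ball x r) := by
    rw [h3, add_comm]
    exact h2.trans (measure_union_le _ _)
  exact ENNReal.le_of_add_le_add_right h4 h5

theorem plane_upper : steinerBallLength 2 ≤ ENNReal.ofReal (2 * Real.pi) := by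
  unfold steinerBallLength
  refine iSup_le fun A => iSup_le fun S => iSup_le fun x => iSup_le fun r => iSup_le fun _ =>
    iSup_le fun hS => iSup_le fun hr => iSup_le fun hA => ?_
  refine ENNReal.div_le_of_le_mul ?_
  rw [← ENNReal.ofReal_mul (by have := Real.pi_pos; positivity)]
  exact (steiner_ball_le_sphere hS hr hA).trans (hausdorff_circle_le x hr)

end Pool.Agent.Lib.MP_8790b5_co
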