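import Mathlib
import Pool.Agent.Lib.MP_8790b5_co.ManyBranch

open MeasureTheory Metric Set Filter Topology ComplexConjugate

namespace Pool.Agent.Lib.MP_8790b5_co

section General

variable {E : Type} [MetricSpace E]

omit [MetricSpace E] in
theorem Tr.inK_univ (t : Tr E) : t.inK univ := by
  induction t with
  | leaf a => trivial
  | node u l r ihl ihr => exact ⟨mem_univ _, ihl, ihr⟩

theorem Tr.net (t : Tr E) (v : E) : Net univ t.leaves v (len (t.edges v)) :=
  ⟨t, rfl, t.inK_univ, le_rfl⟩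

omit [MetricSpace E] in
theorem Tr.mem_of_hasNode {K : Set E} {p : E} (t : Tr E) : t.inK K → t.hasNode p → p ∈ K := by
  induction t with
  | leaf a => intro _ h; exact h.elim
  | node u l r ihl ihr =>
    rintro ⟨h1, h2, h3⟩ (h | h | h)
    · exact h ▸ h1
    · exact ihl h2 h
    · exact ihr h3 h

omit [MetricSpace E] in
theorem Tr.inK_mono {K K' : Set E} (hK : K ⊆ K') (t : Tr E) : t.inK K → t.inK K' := by
  induction t with
  | leaf a => intro _; trivial
  | node u l r ihl ihr => exact fun h => ⟨hK h.1, ihl h.2.1, ihr h.2.2⟩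

/-- Removing a leaf does not increase the length. -/
theorem erase_aux (t : Tr E) : ∀ (v a : E) (A : Multiset E), t.leaves = a ::ₘ A → A ≠ 0 →
    Net univ A v (len (t.edges v)) := by
  induction t with
  | leaf b =>
    intro v a A h hA
    exfalso
    have hc := congrArg Multiset.card h
    simp only [Tr.leaves, Multiset.card_singleton, Multiset.card_cons] at hc
    exact hA (Multiset.card_eq_zero.1 (by omega))
  | node u l r ihl ihr =>
    intro v a A h hA
    simp only [Tr.leaves] at h
    have hy : a ∈ l.leaves + r.leaves := by rw [h]; simp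
    simp only [Tr.edges, len_cons, len_add]
    rcases Multiset.mem_add.1 hy with hy | hy
    · obtain ⟨A', hA'⟩ := Multiset.exists_cons_of_mem hy
      have hA2 : A = A' + r.leaves := by
        rw [hA', Multiset.cons_add] at h
        exact ((Multiset.cons_inj_right a).1 h).symm
      by_cases h0 : A' = 0
      · rw [hA2, h0, zero_add]
        exact ((r.net u).move_root v).mono (by linarith [len_nonneg (l.edges u)])
      · rw [hA2]
        exact ((ihl u a A' hA' h0).join (r.net u) (mem_univ _) v).mono (by linarith)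
    · obtain ⟨A', hA'⟩ := Multiset.exists_cons_of_mem hy
      have hA2 : A = l.leaves + A' := by
        rw [hA', Multiset.add_cons] at h
        exact ((Multiset.cons_inj_right a).1 h).symm
      by_cases h0 : A' = 0
      · rw [hA2, h0, add_zero]
        exact ((l.net u).move_root v).mono (by linarith [len_nonneg (r.edges u)])
      · rw [hA2]
        exact ((l.net u).join (ihr u a A' hA' h0) (mem_univ _) v).mono (by linarith)

theorem Net.erase {a v : E} {A : Multiset E} {L : ℝ} (h : Net univ (a ::ₘ A) v L) (hA : A ≠ 0) :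
    Net univ A v L := by
  obtain ⟨t, h1, -, h3⟩ := h
  exact (erase_aux t v a A h1 hA).mono h3

/-- Exchanging the root with a leaf. -/
theorem reroot_aux (t : Tr E) : ∀ (v a : E) (A : Multiset E), t.leaves = a ::ₘ A →
    Net univ (v ::ₘ A) a (len (t.edges v)) := by
  induction t with
  | leaf b =>
    intro v a A h
    have hc := congrArg Multiset.card h
    simp only [Tr.leaves, Multiset.card_singleton, Multiset.card_cons] at hc
    have hA : A = 0 := Multiset.card_eq_zero.1 (by omega)
    subst hA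
    have hb : b = a := by simpa [Tr.leaves] using h
    subst hb
    simpa [Tr.edges, dist_comm] using net_leaf (K := univ) v b
  | node u l r ihl ihr =>
    intro v a A h
    simp only [Tr.leaves] at h
    have hy : a ∈ l.leaves + r.leaves := by rw [h]; simp
    simp only [Tr.edges, len_cons, len_add]
    rcases Multiset.mem_add.1 hy with hy | hy
    · obtain ⟨A', hA'⟩ := Multiset.exists_cons_of_mem hy
      have hA2 : A = A' + r.leaves := by
        rw [hA', Multiset.cons_add] at h
        exact ((Multiset.cons_inj_right a).1 h).symm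
      have h1 := (ihl u a A' hA').graft
        ((net_leaf (K := univ) v u).join (r.net u) (mem_univ _) u)
      have e : {v} + r.leaves + A' = v ::ₘ A := by
        rw [hA2, ← Multiset.singleton_add]; abel
      rw [e] at h1
      exact h1.mono (by rw [dist_self, dist_comm u v]; linarith)
    · obtain ⟨A', hA'⟩ := Multiset.exists_cons_of_mem hy
      have hA2 : A = l.leaves + A' := by
        rw [hA', Multiset.add_cons] at h
        exact ((Multiset.cons_inj_right a).1 h).symm
      have h1 := (ihr u a A' hA').graft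
        ((net_leaf (K := univ) v u).join (l.net u) (mem_univ _) u)
      have e : {v} + l.leaves + A' = v ::ₘ A := by
        rw [hA2, ← Multiset.singleton_add]; abel
      rw [e] at h1
      exact h1.mono (by rw [dist_self, dist_comm u v]; linarith)

theorem Net.reroot {a v : E} {A : Multiset E} {L : ℝ} (h : Net univ (a ::ₘ A) v L) :
    Net univ (v ::ₘ A) a L := by
  obtain ⟨t, h1, -, h3⟩ := h
  exact (reroot_aux t v a A h1).mono h3

theorem Net.single {K : Set E} {a v : E} {L : ℝ} (h : Net K {a} v L) : dist v a ≤ L := by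
  obtain ⟨t, h1, -, h3⟩ := h
  cases t with
  | leaf b =>
    simp only [Tr.leaves, Multiset.singleton_inj] at h1
    subst h1
    simpa [Tr.edges] using h3
  | node u l r =>
    exfalso
    have hc := congrArg Multiset.card h1
    simp only [Tr.leaves, Multiset.card_add, Multiset.card_singleton] at hc
    have := Multiset.card_pos.2 l.leaves_ne_zero
    have := Multiset.card_pos.2 r.leaves_ne_zero
    omega

/-- Two nets whose terminals are together `a` and `B`; the one containing `a` is put first. -/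
theorem pair_cases {a u : E} {B A1 A2 : Multiset E} {L1 L2 : ℝ} (h : A1 + A2 = a ::ₘ B)
    (h1 : Net univ A1 u L1) (h2 : Net univ A2 u L2) :
    ∃ (A' A'' : Multiset E) (L' L'' : ℝ), A' + A'' = B ∧ L' + L'' = L1 + L2 ∧
      Net univ (a ::ₘ A') u L' ∧ Net univ A'' u L'' := by
  have hy : a ∈ A1 + A2 := by rw [h]; simp
  rcases Multiset.mem_add.1 hy with hy | hy
  · obtain ⟨A', rfl⟩ := Multiset.exists_cons_of_mem hy
    rw [Multiset.cons_add] at h
    exact ⟨A', A2, L1, L2, (Multiset.cons_inj_right a).1 h, rfl, h1, h2⟩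
  · obtain ⟨A', rfl⟩ := Multiset.exists_cons_of_mem hy
    rw [Multiset.add_cons] at h
    exact ⟨A', A1, L2, L1, by rw [add_comm]; exact (Multiset.cons_inj_right a).1 h,
      add_comm _ _, h2, h1⟩

theorem Net.split {a v : E} {B : Multiset E} {L : ℝ} (h : Net univ (a ::ₘ B) v L) (hB : B ≠ 0) :
    ∃ (u : E) (A' A'' : Multiset E) (L' L'' : ℝ), A' + A'' = B ∧ dist v u + L' + L'' ≤ L ∧
      Net univ (a ::ₘ A') u L' ∧ Net univ A'' u L'' := by
  obtain ⟨t, h1, -, h3⟩ := h
  cases t with
  | leaf b =>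
    exfalso
    have hc := congrArg Multiset.card h1
    simp only [Tr.leaves, Multiset.card_singleton, Multiset.card_cons] at hc
    exact hB (Multiset.card_eq_zero.1 (by omega))
  | node u l r =>
    obtain ⟨A', A'', L', L'', e1, e2, n1, n2⟩ := pair_cases h1 (l.net u) (r.net u)
    simp only [Tr.edges, len_cons, len_add] at h3
    exact ⟨u, A', A'', L', L'', e1, by linarith, n1, n2⟩

variable {B : Multiset E} {e e' c t : E} {r γ δ : ℝ}

/-- The lower bound persists when a terminal is added close to `c`. -/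
theorem step_lower (hB : B ≠ 0)
    (H1 : ∀ y ∈ ball c r, ∀ L, Net univ B y L → dist y e ≤ L)
    (H2 : ∀ A1 A2 L1 L2, A1 + A2 = B → Net univ A1 c L1 → Net univ A2 c L2 →
      dist c e + γ ≤ L1 + L2)
    (hP : ∀ u, dist u e' ≤ dist u t + dist u e)
    (hr : 3 * δ < r) (hγ : 13 * δ ≤ γ) (ht : dist t c ≤ δ) {y : E} (hy : dist y c ≤ δ)
    {L : ℝ} (h : Net univ (t ::ₘ B) y L) : dist y e' ≤ L := by
  have hδ : 0 ≤ δ := dist_nonneg.trans ht
  obtain ⟨u, A', A'', L', L'', e1, e2, n1, n2⟩ := h.split hB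
  have hyt : dist y t ≤ 2 * δ := by linarith [dist_triangle_right y t c]
  have hye := hP y
  by_cases h0 : A' = 0
  · subst h0
    rw [zero_add] at e1
    subst e1
    have h1 : dist u t ≤ L' := Net.single (K := univ) n1
    by_cases hu : u ∈ ball c r
    · have h2 := H1 u hu L'' n2
      linarith [hP u, dist_triangle y u e']
    · have h2 := H1 y (by rw [mem_ball]; linarith) _ (n2.move_root y)
      rw [mem_ball, not_lt] at hu
      linarith [dist_triangle u t c]
  · by_cases hu : dist u c ≤ 5 * δ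
    · have h1 := H2 A' A'' _ _ e1 ((n1.erase h0).move_root c) (n2.move_root c)
      rw [dist_comm c u] at h1
      linarith [dist_triangle y c e, dist_nonneg (x := y) (y := u)]
    · have h1 := n1.reroot.graft n2
      rw [add_comm A'' A', e1] at h1
      have h2 := H1 t (by rw [mem_ball]; linarith) _ h1
      rw [not_le] at hu
      linarith [dist_triangle y t e, dist_triangle_left u c y, dist_comm y u]

/-- The gap against splitting at the root persists. -/
theorem step_gap
    (H1 : ∀ y ∈ ball c r, ∀ L, Net univ B y L → dist y e ≤ L)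
    (H2 : ∀ A1 A2 L1 L2, A1 + A2 = B → Net univ A1 c L1 → Net univ A2 c L2 →
      dist c e + γ ≤ L1 + L2)
    (hr : 3 * δ < r) (hγ : 13 * δ ≤ γ) (ht : dist t c ≤ δ) {y : E} (hy : dist y c ≤ δ)
    {γ' : ℝ} (h2 : dist y e' + γ' ≤ dist y t + dist y e)
    (A1 A2 : Multiset E) (L1 L2 : ℝ) (hA : A1 + A2 = t ::ₘ B) (n1 : Net univ A1 y L1)
    (n2 : Net univ A2 y L2) : dist y e' + γ' ≤ L1 + L2 := by
  have hδ : 0 ≤ δ := dist_nonneg.trans ht
  obtain ⟨A', A'', L', L'', e1, e2, m1, m2⟩ := pair_cases hA n1 n2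
  have hyt : dist y t ≤ 2 * δ := by linarith [dist_triangle_right y t c]
  by_cases h0 : A' = 0
  · subst h0
    rw [zero_add] at e1
    subst e1
    have h3 : dist y t ≤ L' := Net.single (K := univ) m1
    have h4 := H1 y (by rw [mem_ball]; linarith) L'' m2
    linarith
  · have h3 := H2 A' A'' _ _ e1 ((m1.erase h0).move_root c) (m2.move_root c)
    rw [dist_comm c y] at h3
    linarith [dist_triangle y c e]

/-- Transport of trees along a map. -/
def Tr.map {E' : Type} (f : E → E') : Tr E → Tr E'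
  | Tr.leaf a => Tr.leaf (f a)
  | Tr.node u l r => Tr.node (f u) (l.map f) (r.map f)

omit [MetricSpace E] in
theorem Tr.leaves_map {E' : Type} (f : E → E') (t : Tr E) :
    (t.map f).leaves = t.leaves.map f := by
  induction t with
  | leaf a => simp [Tr.map, Tr.leaves]
  | node u l r ihl ihr => simp [Tr.map, Tr.leaves, ihl, ihr]

theorem Tr.len_map {E' : Type} [MetricSpace E'] {f : E → E'} (hf : Isometry f) (t : Tr E) :
    ∀ v, len ((t.map f).edges (f v)) = len (t.edges v) := by
  induction t with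
  | leaf a => intro v; simp [Tr.map, Tr.edges, hf.dist_eq]
  | node u l r ihl ihr => intro v; simp [Tr.map, Tr.edges, hf.dist_eq, ihl, ihr]

omit [MetricSpace E] in
theorem Tr.hasNode_map {E' : Type} (f : E → E') {p : E} (t : Tr E) :
    t.hasNode p → (t.map f).hasNode (f p) := by
  induction t with
  | leaf a => exact fun h => h.elim
  | node u l r ihl ihr =>
    rintro (h | h | h)
    · exact Or.inl (congrArg f h)
    · exact Or.inr (Or.inl (ihl h))
    · exact Or.inr (Or.inr (ihr h))

omit [MetricSpace E] in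
theorem Tr.inK_map {E' : Type} {f : E → E'} {K : Set E} {K' : Set E'} (hf : MapsTo f K K')
    (t : Tr E) : t.inK K → (t.map f).inK K' := by
  induction t with
  | leaf a => intro _; trivial
  | node u l r ihl ihr => exact fun h => ⟨hf h.1, ihl h.2.1, ihr h.2.2⟩

end General

section Geometry

variable {q : ℂ}

theorem sqrt3_sq : √3 ^ 2 = (3 : ℝ) := Real.sq_sqrt (by norm_num)

theorem sqrt3_pos : (0 : ℝ) < √3 := Real.sqrt_pos.2 (by norm_num)

theorem sqrt3_lt : √3 < (2 : ℝ) := by nlinarith [sqrt3_sq, sqrt3_pos]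

theorem normsq_comb (hre : q.re = √3 / 2) (him : q.im ^ 2 = 1 / 4) (x y z : ℝ) :
    ‖(x : ℂ) + y * conj q + z * q‖ ^ 2 = x ^ 2 + √3 * x * (y + z) + y ^ 2 + y * z + z ^ 2 := by
  rw [Complex.sq_norm, Complex.normSq_apply]
  simp only [Complex.add_re, Complex.add_im, Complex.mul_re, Complex.mul_im, Complex.ofReal_re,
    Complex.ofReal_im, Complex.conj_re, Complex.conj_im, hre]
  linear_combination (y - z) ^ 2 * him + ((y + z) ^ 2 / 4) * sqrt3_sq

theorem norm_q (hre : q.re = √3 / 2) (him : q.im ^ 2 = 1 / 4) : ‖q‖ = 1 := by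
  have h := normsq_comb hre him 0 0 1
  simp only [Complex.ofReal_zero, Complex.ofReal_one, zero_mul, add_zero, zero_add, one_mul] at h
  nlinarith [norm_nonneg q]

theorem q_mul (hre : q.re = √3 / 2) (him : q.im ^ 2 = 1 / 4) : q * conj q = 1 := by
  rw [Complex.mul_conj, Complex.normSq_eq_norm_sq, norm_q hre him]; simp

theorem q_sq (hre : q.re = √3 / 2) (him : q.im ^ 2 = 1 / 4) : q ^ 2 + conj q ^ 2 = 1 := by
  apply Complex.ext
  · simp only [pow_two, Complex.add_re, Complex.mul_re, Complex.conj_re, Complex.conj_im, hre,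
      Complex.one_re]
    linear_combination (-2) * him + (1 / 2) * sqrt3_sq
  · simp only [pow_two, Complex.add_im, Complex.mul_im, Complex.conj_re, Complex.conj_im,
      Complex.one_im]
    ring

/-- Choice of the new terminals. -/
theorem choose_params (hre : q.re = √3 / 2) (him : q.im ^ 2 = 1 / 4) {c e : ℂ} {Λ δ : ℝ}
    (hc : ‖c‖ = 1) (hΛ : 1 < Λ) (he : c - e = Λ * c * q) (hδ : 0 < δ) :
    ∃ (c' : ℂ) (s β α : ℝ), ‖c'‖ = 1 ∧ 0 < s ∧ 0 < β ∧ 1 < α ∧ s + β ≤ δ ∧ dist c' c ≤ δ ∧
      e = c' * (1 - s * conj q - α * q) ∧ β ^ 2 + β * s + s ^ 2 = √3 * s := by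
  set β : ℝ → ℝ := fun μ => √3 * μ / (1 + μ + μ ^ 2) with hβ
  set s : ℝ → ℝ := fun μ => μ * β μ with hs
  set D : ℝ → ℝ := fun μ => (√3 - s μ) ^ 2 + 4 * (Λ ^ 2 - √3 * Λ - s μ ^ 2 + √3 * s μ) with hD
  set α : ℝ → ℝ := fun μ => (√3 - s μ + √(D μ)) / 2 with hα
  set z : ℝ → ℂ := fun μ => 1 - s μ * conj q - α μ * q with hz
  have hden : ∀ μ : ℝ, 0 < 1 + μ + μ ^ 2 := fun μ => by nlinarith [sq_nonneg (μ + 1 / 2)]
  have cβ : Continuous β := Continuous.div (by fun_prop) (by fun_prop) fun μ => (hden μ).ne'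
  have cs : Continuous s := by fun_prop
  have cD : Continuous D := by fun_prop
  have cα : Continuous α := by fun_prop
  have cz : Continuous z := by fun_prop
  have β0 : β 0 = 0 := by simp [hβ]
  have s0 : s 0 = 0 := by simp [hs]
  have hpos : 0 < 2 * Λ - √3 := by linarith [sqrt3_lt]
  have D0 : D 0 = (2 * Λ - √3) ^ 2 := by simp only [hD, s0]; ring
  have α0 : α 0 = Λ := by simp only [hα, D0, s0, Real.sqrt_sq hpos.le]; ring
  have z0 : z 0 = 1 - Λ * q := by simp [hz, s0, α0]
  have hn0 : ‖(1 : ℂ) - Λ * q‖ ^ 2 = 1 - √3 * Λ + Λ ^ 2 := by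
    have h := normsq_comb hre him 1 0 (-Λ)
    have e1 : ((1 : ℝ) : ℂ) + (0 : ℝ) * conj q + (-Λ : ℝ) * q = 1 - Λ * q := by push_cast; ring
    rw [e1] at h
    linarith
  have hz0 : (1 : ℂ) - Λ * q ≠ 0 := by
    intro h
    rw [h] at hn0
    simp only [norm_zero] at hn0
    nlinarith [sqrt3_sq, sq_nonneg (2 * Λ - √3)]
  have hee : e = c * (1 - Λ * q) := by linear_combination -he
  have cc : ContinuousAt (fun μ => e / z μ) 0 :=
    continuousAt_const.div cz.continuousAt (by rw [z0]; exact hz0)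
  have c0 : e / z 0 = c := by rw [z0, hee]; field_simp
  have E1 : ∀ᶠ μ in 𝓝 (0 : ℝ), s μ + β μ < δ :=
    (cs.add cβ).continuousAt.eventually_lt continuousAt_const (by simpa [s0, β0] using hδ)
  have E2 : ∀ᶠ μ in 𝓝 (0 : ℝ), 1 < α μ :=
    continuousAt_const.eventually_lt cα.continuousAt (by simpa [α0] using hΛ)
  have E3 : ∀ᶠ μ in 𝓝 (0 : ℝ), 0 < D μ :=
    continuousAt_const.eventually_lt cD.continuousAt (by rw [D0]; positivity)
  have E4 : ∀ᶠ μ in 𝓝 (0 : ℝ), dist (e / z μ) c < δ := by
    have := cc.tendsto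
    rw [c0] at this
    exact this.eventually (ball_mem_nhds c hδ)
  have E5 : ∀ᶠ μ in 𝓝[>] (0 : ℝ), 0 < μ := self_mem_nhdsWithin
  obtain ⟨μ, ⟨⟨⟨h1, h2⟩, h3⟩, h4⟩, h5⟩ :=
    (((((E1.and E2).and E3).and E4).filter_mono nhdsWithin_le_nhds).and E5).exists
  have hβp : 0 < β μ := div_pos (mul_pos sqrt3_pos h5) (hden μ)
  have hβe : β μ * (1 + μ + μ ^ 2) = √3 * μ := by
    simp only [hβ]; field_simp [(hden μ).ne']
  have hn : ‖z μ‖ ^ 2 = 1 - √3 * Λ + Λ ^ 2 := by
    have h := normsq_comb hre him 1 (-s μ) (-α μ)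
    have e1 : ((1 : ℝ) : ℂ) + (-s μ : ℝ) * conj q + (-α μ : ℝ) * q = z μ := by
      simp only [hz]; push_cast; ring
    rw [e1] at h
    have h6 : √(D μ) ^ 2 = D μ := Real.sq_sqrt h3.le
    have h7 : √(D μ) = 2 * α μ - √3 + s μ := by simp only [hα]; ring
    rw [h7] at h6
    simp only [hD] at h6
    linear_combination h + (1 / 4) * h6
  have hnn : ‖z μ‖ = ‖(1 : ℂ) - Λ * q‖ := by
    rw [← sq_eq_sq₀ (norm_nonneg _) (norm_nonneg _), hn, hn0]
  have hzμ : z μ ≠ 0 := by
    rw [← norm_ne_zero_iff, hnn, norm_ne_zero_iff]; exact hz0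
  refine ⟨e / z μ, s μ, β μ, α μ, ?_, mul_pos h5 hβp, hβp, h2, h1.le, h4.le, ?_, ?_⟩
  · rw [norm_div, hnn, hee, norm_mul, hc, one_mul, div_self (norm_ne_zero_iff.2 hz0)]
  · change e = e / z μ * z μ
    field_simp
  · simp only [hs]
    linear_combination (β μ) * hβe

/-- The Fermat point of `y`, `t`, `e` for `y` close to `c'`. -/
theorem fermat_near (hre : q.re = √3 / 2) (him : q.im ^ 2 = 1 / 4) {c' e e' t : ℂ} {s β α : ℝ}
    (hc : ‖c'‖ = 1) (hs : 0 < s) (hβ : 0 < β) (hα : 0 < α)
    (he : e = c' * (1 - s * conj q - α * q)) (ht : t = c' * (1 - s * conj q + β * (q - conj q)))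
    (he' : e' = c' - ((α + β + s : ℝ) : ℂ) * c' * conj q) {U : Set ℂ}
    (hU : U ∈ 𝓝 (c' * (1 - s * conj q))) :
    ∀ᶠ y in 𝓝 c', ∃ p ∈ U, dist y p + dist p t + dist p e ≤ dist y e' := by
  have h1 := q_mul hre him
  have h2 := q_sq hre him
  have hq := norm_q hre him
  have hb : q.im ≠ 0 := by intro h; rw [h] at him; norm_num at him
  have hb3 : √3 * q.im ≠ 0 := mul_ne_zero sqrt3_pos.ne' hb
  have hcc : c' * conj c' = 1 := by rw [Complex.mul_conj, Complex.normSq_eq_norm_sq, hc]; simp
  set N : ℂ → ℝ := fun y => ‖y - e'‖ with hN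
  set w : ℂ → ℂ := fun y => (y - e') / (N y : ℂ) with hw
  set z : ℂ → ℂ := fun y => (e - e') * conj (w y) with hz
  set a : ℂ → ℝ := fun y => -(z y).im / (√3 * q.im) with ha
  set b : ℂ → ℝ := fun y => (z y).re - a y / 2 with hb'
  set P : ℂ → ℂ := fun y => e' + ((a y + b y : ℝ) : ℂ) * w y with hP
  have hre2 : (conj q ^ 2).re = 1 / 2 := by
    simp only [pow_two, Complex.mul_re, Complex.conj_re, Complex.conj_im, hre]
    linear_combination (-1) * him + (1 / 4) * sqrt3_sq
  have him2 : (conj q ^ 2).im = -(√3 * q.im) := by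
    simp only [pow_two, Complex.mul_im, Complex.conj_re, Complex.conj_im, hre]
    ring
  have hsum : 0 < α + β + s := by positivity
  have d0 : c' - e' = ((α + β + s : ℝ) : ℂ) * c' * conj q := by rw [he']; ring
  have N0 : N c' = α + β + s := by
    simp only [hN]
    rw [d0, norm_mul, norm_mul, hc, Complex.norm_conj, hq, Complex.norm_real, Real.norm_eq_abs,
      abs_of_pos hsum]
    ring
  have hsumC : ((α + β + s : ℝ) : ℂ) ≠ 0 := Complex.ofReal_ne_zero.2 hsum.ne'
  have w0 : w c' = c' * conj q := by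
    simp only [hw]
    rw [N0, d0]
    field_simp
  have z0 : z c' = α * conj q ^ 2 + β := by
    simp only [hz]
    rw [w0, he, he', map_mul, Complex.conj_conj]
    push_cast
    linear_combination (-α * q ^ 2 + (α + β) * (q * conj q)) * hcc + (α + β) * h1 - α * h2
  have a0 : a c' = α := by
    simp only [ha]
    rw [z0, Complex.add_im, Complex.ofReal_im, Complex.im_ofReal_mul, him2]
    field_simp
    ring
  have b0 : b c' = β := by
    simp only [hb']
    rw [a0, z0, Complex.add_re, Complex.ofReal_re, Complex.re_ofReal_mul, hre2]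
    ring
  have P0 : P c' = c' * (1 - s * conj q) := by
    simp only [hP]
    rw [a0, b0, w0, he']
    push_cast
    ring
  have cN : Continuous N := by fun_prop
  have cw : ContinuousAt w c' := by
    refine ContinuousAt.div (by fun_prop) (by fun_prop) ?_
    rw [N0]; exact hsumC
  have cz : ContinuousAt z c' :=
    continuousAt_const.mul (Complex.continuous_conj.continuousAt.comp cw)
  have ca : ContinuousAt a c' :=
    ((Complex.continuous_im.continuousAt.comp cz).neg).div_const _
  have cb : ContinuousAt b c' :=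
    (Complex.continuous_re.continuousAt.comp cz).sub (ca.div_const _)
  have cP : ContinuousAt P c' :=
    continuousAt_const.add ((Complex.continuous_ofReal.continuousAt.comp (ca.add cb)).mul cw)
  have E1 : ∀ᶠ y in 𝓝 c', 0 < a y :=
    continuousAt_const.eventually_lt ca (by rw [a0]; exact hα)
  have E2 : ∀ᶠ y in 𝓝 c', 0 < b y :=
    continuousAt_const.eventually_lt cb (by rw [b0]; exact hβ)
  have E3 : ∀ᶠ y in 𝓝 c', a y + b y < N y :=
    (ca.add cb).eventually_lt cN.continuousAt (by simp only [Pi.add_apply, a0, b0, N0]; linarith)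
  have E4 : ∀ᶠ y in 𝓝 c', P y ∈ U := cP.tendsto.eventually (by rw [P0]; exact hU)
  filter_upwards [E1, E2, E3, E4] with y g1 g2 g3 g4
  refine ⟨P y, g4, ?_⟩
  have hNp : 0 < N y := by linarith
  have hNC : (N y : ℂ) ≠ 0 := Complex.ofReal_ne_zero.2 hNp.ne'
  have hwn : ‖w y‖ = 1 := by
    simp only [hw]
    rw [norm_div, Complex.norm_real, Real.norm_eq_abs, abs_of_pos hNp]
    exact div_self hNp.ne'
  have hww : w y * conj (w y) = 1 := by
    rw [Complex.mul_conj, Complex.normSq_eq_norm_sq, hwn]; simp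
  have hy : y - e' = N y * w y := by simp only [hw]; field_simp
  have hzz : z y = a y * conj q ^ 2 + b y := by
    apply Complex.ext
    · rw [Complex.add_re, Complex.ofReal_re, Complex.re_ofReal_mul, hre2]
      simp only [hb']
      ring
    · rw [Complex.add_im, Complex.ofReal_im, Complex.im_ofReal_mul, him2]
      simp only [ha]
      field_simp
      ring
  have hE : e - e' = w y * (a y * conj q ^ 2 + b y) := by
    rw [← hzz]
    simp only [hz]
    linear_combination (-(e - e')) * hww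
  have hT : t - e' = q ^ 2 * (e - e') := by
    rw [ht, he, he']
    push_cast
    linear_combination (c' * α * q) * h2 - (c' * (α * conj q + α * q + β * q)) * h1
  have k1 : y - P y = ((N y - a y - b y : ℝ) : ℂ) * w y := by
    simp only [hP]
    push_cast
    linear_combination hy
  have k2 : P y - e = (a y : ℂ) * w y * q ^ 2 := by
    simp only [hP]
    push_cast
    linear_combination -hE - (a y * w y) * h2
  have k3 : P y - t = (b y : ℂ) * w y * conj q ^ 2 := by
    simp only [hP]
    push_cast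
    linear_combination -hT - q ^ 2 * hE - (b y * w y) * h2 -
      (a y * w y * (q * conj q + 1)) * h1
  rw [dist_eq_norm, dist_eq_norm, dist_eq_norm, dist_eq_norm, k1, k2, k3]
  simp only [norm_mul, norm_pow, hwn, hq, Complex.norm_conj, Complex.norm_real, Real.norm_eq_abs,
    abs_of_pos g1, abs_of_pos g2, abs_of_pos (show 0 < N y - a y - b y by linarith)]
  change _ ≤ N y
  linarith

theorem ptolemy (hre : q.re = √3 / 2) (him : q.im ^ 2 = 1 / 4) {c' e e' t : ℂ} {s β α : ℝ}
    (he : e = c' * (1 - s * conj q - α * q)) (ht : t = c' * (1 - s * conj q + β * (q - conj q)))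
    (he' : e' = c' - ((α + β + s : ℝ) : ℂ) * c' * conj q) (u : ℂ) :
    dist u e' ≤ dist u t + dist u e := by
  have h1 := q_mul hre him
  have h2 := q_sq hre him
  have hq := norm_q hre him
  have k : u - e' = q ^ 2 * (u - t) + conj q ^ 2 * (u - e) := by
    rw [ht, he, he']
    push_cast
    linear_combination (c' * (1 - s * conj q) + c' * β * q - u) * h2 -
      (c' * (α * conj q + β * q + β * conj q)) * h1
  rw [dist_eq_norm, dist_eq_norm, dist_eq_norm, k]
  refine (norm_add_le _ _).trans (le_of_eq ?_)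
  simp [hq]

theorem strict_gap (hre : q.re = √3 / 2) (him : q.im ^ 2 = 1 / 4) {c' e t : ℂ} {s β α : ℝ}
    (hc : ‖c'‖ = 1) (hs : 0 < s)
    (he : e = c' * (1 - s * conj q - α * q)) (ht : t = c' * (1 - s * conj q + β * (q - conj q))) :
    α + β + s < dist c' t + dist c' e := by
  have k1 : c' - t = c' * (((0 : ℝ) : ℂ) + ((s + β : ℝ) : ℂ) * conj q + ((-β : ℝ) : ℂ) * q) := by
    rw [ht]; push_cast; ring
  have k2 : c' - e = c' * (((0 : ℝ) : ℂ) + (s : ℂ) * conj q + (α : ℂ) * q) := by
    rw [he]; push_cast; ring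
  rw [dist_eq_norm, dist_eq_norm, k1, k2, norm_mul, norm_mul, hc, one_mul, one_mul]
  have n1 := normsq_comb hre him 0 (s + β) (-β)
  have n2 := normsq_comb hre him 0 s α
  have l1 : β + s / 2 < ‖((0 : ℝ) : ℂ) + ((s + β : ℝ) : ℂ) * conj q + ((-β : ℝ) : ℂ) * q‖ := by
    apply lt_of_pow_lt_pow_left₀ 2 (norm_nonneg _)
    rw [n1]; nlinarith
  have l2 : α + s / 2 < ‖((0 : ℝ) : ℂ) + (s : ℂ) * conj q + (α : ℂ) * q‖ := by
    apply lt_of_pow_lt_pow_left₀ 2 (norm_nonneg _)
    rw [n2]; nlinarith
  linarith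

end Geometry

/-- The state of the construction after `k` branchings: terminals `B` on the unit circle such
that for `y` near the point `c` of the circle the shortest network joining `B` and `y` has
length `dist y e`, enters at thirty degrees to the normal, and has `k` nodes away from `c`. -/
structure Stage (k : ℕ) (B : Multiset ℂ) (e c q : ℂ) (Λ r γ : ℝ) : Prop where
  hc : ‖c‖ = 1
  hB : ∀ b ∈ B, ‖b‖ = 1 ∧ b ∉ ball c r
  nodup : B.Nodup
  ne : B ≠ 0
  hr : 0 < r
  hγ : 0 < γ
  hΛ : 1 < Λ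
  hre : q.re = √3 / 2
  him : q.im ^ 2 = 1 / 4
  he : c - e = Λ * c * q
  H1 : ∀ y ∈ ball c r, ∀ L, Net univ B y L → dist y e ≤ L
  H2 : ∀ A1 A2 L1 L2, A1 + A2 = B → Net univ A1 c L1 → Net univ A2 c L2 →
    dist c e + γ ≤ L1 + L2
  H3 : ∀ y ∈ ball c r, ∃ T : Tr ℂ, T.leaves = B ∧ T.inK (ball 0 1) ∧
    len (T.edges y) ≤ dist y e ∧
    ∃ P : Finset ℂ, P.card = k ∧ ∀ p ∈ P, T.hasNode p ∧ p ∉ ball c r

theorem stage_zero : ∃ B e c q Λ r γ, Stage 0 B e c q Λ r γ := by
  set q : ℂ := ⟨√3 / 2, 1 / 2⟩ with hq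
  have hre : q.re = √3 / 2 := rfl
  have him : q.im ^ 2 = 1 / 4 := by simp only [hq]; norm_num
  have h3 : (1 : ℝ) < √3 := by nlinarith [sqrt3_sq, sqrt3_pos]
  have hn : ‖(1 : ℂ) - (√3 : ℝ) * q‖ = 1 := by
    have h := normsq_comb hre him 1 0 (-√3)
    have e1 : ((1 : ℝ) : ℂ) + (0 : ℝ) * conj q + (-√3 : ℝ) * q = 1 - (√3 : ℝ) * q := by
      push_cast; ring
    rw [e1] at h
    nlinarith [norm_nonneg ((1 : ℂ) - (√3 : ℝ) * q)]
  refine ⟨{1 - (√3 : ℝ) * q}, 1 - (√3 : ℝ) * q, 1, q, √3, 1, 1, norm_one, ?_, by simp, by simp,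
    one_pos, one_pos, h3, hre, him, by ring, fun y _ L h => h.single, ?_, fun y _ => ?_⟩
  · intro b hb
    rw [Multiset.mem_singleton] at hb
    subst hb
    refine ⟨hn, ?_⟩
    rw [mem_ball, dist_eq_norm, not_lt]
    have : (1 : ℂ) - (√3 : ℝ) * q - 1 = -((√3 : ℝ) * q) := by ring
    rw [this, norm_neg, norm_mul, norm_q hre him, Complex.norm_real, Real.norm_eq_abs,
      abs_of_pos sqrt3_pos]
    linarith
  · intro A1 A2 L1 L2 h n1 n2
    exfalso
    have hc := congrArg Multiset.card h
    simp only [Multiset.card_add, Multiset.card_singleton] at hc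
    have := Multiset.card_pos.2 n1.ne_zero
    have := Multiset.card_pos.2 n2.ne_zero
    omega
  · exact ⟨Tr.leaf _, rfl, trivial, by simp [Tr.edges], ∅, rfl, by simp⟩

theorem Stage.step {k : ℕ} {B : Multiset ℂ} {e c q : ℂ} {Λ r γ : ℝ}
    (h : Stage k B e c q Λ r γ) : ∃ B e c q Λ r γ, Stage (k + 1) B e c q Λ r γ := by
  classical
  have hre := h.hre
  have him := h.him
  have hq := norm_q hre him
  set δ : ℝ := min (r / 8) (γ / 26) with hδ
  have hδ0 : 0 < δ := lt_min (by linarith [h.hr]) (by linarith [h.hγ])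
  have hδr : δ ≤ r / 8 := min_le_left _ _
  have hδγ : δ ≤ γ / 26 := min_le_right _ _
  obtain ⟨c', s, β, α, hc', hs, hβ, hα, hsβ, hcc, he, hcirc⟩ :=
    choose_params hre him h.hc h.hΛ h.he (half_pos hδ0)
  set t : ℂ := c' * (1 - s * conj q + β * (q - conj q)) with ht
  set e' : ℂ := c' - ((α + β + s : ℝ) : ℂ) * c' * conj q with he'
  have hα0 : 0 < α := by linarith
  have hP := ptolemy hre him he ht he'
  have hgap := strict_gap hre him hc' hs he ht
  have hsum : 0 < α + β + s := by positivity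
  have hd' : dist c' e' = α + β + s := by
    have d0 : c' - e' = ((α + β + s : ℝ) : ℂ) * c' * conj q := by rw [he']; ring
    rw [dist_eq_norm, d0, norm_mul, norm_mul, hc', Complex.norm_conj, hq, Complex.norm_real,
      Real.norm_eq_abs, abs_of_pos hsum]
    ring
  have ht1 : ‖t‖ = 1 := by
    have n := normsq_comb hre him 1 (-(s + β)) β
    have e1 : ((1 : ℝ) : ℂ) + (-(s + β) : ℝ) * conj q + (β : ℝ) * q =
        1 - s * conj q + β * (q - conj q) := by push_cast; ring
    rw [e1] at n
    rw [ht, norm_mul, hc', one_mul, ← sq_eq_sq₀ (norm_nonneg _) zero_le_one, n]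
    linear_combination hcirc
  have htc2 : dist t c' ^ 2 = s ^ 2 + s * β + β ^ 2 := by
    have k1 : t - c' = c' * (((0 : ℝ) : ℂ) + ((-(s + β) : ℝ) : ℂ) * conj q + (β : ℂ) * q) := by
      rw [ht]; push_cast; ring
    rw [dist_eq_norm, k1, norm_mul, hc', one_mul, normsq_comb hre him]
    ring
  have htc : dist t c' ≤ s + β := by
    rw [← sq_le_sq₀ dist_nonneg (by positivity), htc2]
    nlinarith [mul_pos hs hβ]
  have htc0 : 0 < dist t c' := by
    apply lt_of_pow_lt_pow_left₀ 2 dist_nonneg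
    rw [htc2]
    nlinarith [mul_pos hs hβ]
  have htcc : dist t c ≤ 2 * δ := by linarith [dist_triangle t c' c]
  have hp0 : dist (c' * (1 - s * conj q)) c' = s := by
    have k1 : c' * (1 - s * conj q) - c' = -(s * c' * conj q) := by ring
    rw [dist_eq_norm, k1, norm_neg, norm_mul, norm_mul, hc', Complex.norm_conj, hq,
      Complex.norm_real, Real.norm_eq_abs, abs_of_pos hs]
    ring
  have hp1 : ‖c' * (1 - s * conj q)‖ < 1 := by
    have n := normsq_comb hre him 1 (-s) 0
    have e1 : ((1 : ℝ) : ℂ) + (-s : ℝ) * conj q + (0 : ℝ) * q = 1 - s * conj q := by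
      push_cast; ring
    rw [e1] at n
    rw [norm_mul, hc', one_mul]
    apply lt_of_pow_lt_pow_left₀ 2 zero_le_one
    rw [n]
    nlinarith
  have hU : ball c r ∩ ball 0 1 ∩ (closedBall c' (s / 2))ᶜ ∈ 𝓝 (c' * (1 - s * conj q)) := by
    refine ((isOpen_ball.inter isOpen_ball).inter isClosed_closedBall.isOpen_compl).mem_nhds
      ⟨⟨?_, by simpa using hp1⟩, ?_⟩
    · rw [mem_ball]
      linarith [dist_triangle (c' * (1 - s * conj q)) c' c, h.hr]
    · rw [mem_compl_iff, mem_closedBall, hp0]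
      linarith
  obtain ⟨ε, hε, hF⟩ := Metric.eventually_nhds_iff_ball.1
    (fermat_near hre him hc' hs hβ hα0 he ht he' hU)
  set r' : ℝ := min (min ε (s / 2)) (dist t c') with hr'
  have r1 : r' ≤ ε := (min_le_left _ _).trans (min_le_left _ _)
  have r2 : r' ≤ s / 2 := (min_le_left _ _).trans (min_le_right _ _)
  have r3 : r' ≤ dist t c' := min_le_right _ _
  have hnear : ∀ y ∈ ball c' r', dist y c ≤ 2 * δ := by
    intro y hy
    rw [mem_ball] at hy
    linarith [dist_triangle y c' c]
  have hsub : ∀ y ∈ ball c' r', y ∈ ball c r := by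
    intro y hy
    rw [mem_ball]
    linarith [hnear y hy, h.hr]
  have htB : t ∉ B := fun hb => (h.hB t hb).2 (by rw [mem_ball]; linarith [h.hr])
  refine ⟨t ::ₘ B, e', c', conj q, α + β + s, r', dist c' t + dist c' e - (α + β + s), hc', ?_,
    Multiset.nodup_cons.2 ⟨htB, h.nodup⟩, Multiset.cons_ne_zero,
    lt_min (lt_min hε (half_pos hs)) htc0, by linarith, by linarith, by simpa using hre,
    by simpa using him, by rw [he']; ring, ?_, ?_, ?_⟩
  · intro b hb
    rcases Multiset.mem_cons.1 hb with rfl | hb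
    · exact ⟨ht1, by rw [mem_ball, not_lt]; exact r3⟩
    · exact ⟨(h.hB b hb).1, fun hb' => (h.hB b hb).2 (hsub b hb')⟩
  · intro y hy L hL
    exact step_lower h.ne h.H1 h.H2 hP (δ := 2 * δ) (by linarith [h.hr]) (by linarith) htcc
      (hnear y hy) hL
  · exact step_gap h.H1 h.H2 (δ := 2 * δ) (by linarith [h.hr]) (by linarith) htcc
      (by linarith) (by linarith)
  · intro y hy
    obtain ⟨p, ⟨⟨hp1, hp2⟩, hp3⟩, hp4⟩ := hF y (ball_subset_ball r1 hy)
    obtain ⟨T, t1, t2, t3, P, t4, t5⟩ := h.H3 p hp1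
    refine ⟨Tr.node p (Tr.leaf t) T, by simp [Tr.leaves, t1], ⟨hp2, trivial, t2⟩, ?_,
      insert p P, ?_, ?_⟩
    · simp only [Tr.edges, len_cons, len_add, len_singleton]
      linarith
    · rw [Finset.card_insert_of_notMem fun hp => (t5 p hp).2 hp1, t4]
    · intro p' hp'
      rcases Finset.mem_insert.1 hp' with rfl | hp'
      · refine ⟨Or.inl rfl, fun hb => hp3 ?_⟩
        rw [mem_ball] at hb
        rw [mem_closedBall]
        linarith
      · exact ⟨Or.inr (Or.inr (t5 p' hp').1), fun hb => (t5 p' hp').2 (hsub p' hb)⟩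

theorem exists_stage (k : ℕ) : ∃ B e c q Λ r γ, Stage k B e c q Λ r γ := by
  induction k with
  | zero => exact stage_zero
  | succ k ih =>
    obtain ⟨B, e, c, q, Λ, r, γ, h⟩ := ih
    exact h.step

theorem nat_le_steinerBallBranching_two (k : ℕ) : (k : ℕ∞) ≤ steinerBallBranching 2 := by
  classical
  obtain ⟨B, e, c, q, Λ, r, γ, h⟩ := exists_stage k
  set f : ℂ ≃ₗᵢ[ℝ] EuclideanSpace ℝ (Fin 2) := Complex.orthonormalBasisOneI.repr with hf
  have hcb : c ∈ ball c r := mem_ball_self h.hr
  obtain ⟨T, t1, t2, t3, P, t4, t5⟩ := h.H3 c hcb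
  have hcB : c ∉ B := fun hb => (h.hB c hb).2 hcb
  have hnd : ((c ::ₘ B).map f).Nodup :=
    (Multiset.nodup_cons.2 ⟨hcB, h.nodup⟩).map f.injective
  set A : Finset (EuclideanSpace ℝ (Fin 2)) := ⟨(c ::ₘ B).map f, hnd⟩ with hA
  have hA1 : ∀ z ∈ A, ‖z‖ = 1 := by
    intro z hz
    obtain ⟨b, hb, rfl⟩ := Multiset.mem_map.1 (show z ∈ (c ::ₘ B).map f from hz)
    rw [f.norm_map]
    rcases Multiset.mem_cons.1 hb with rfl | hb
    · exact h.hc
    · exact (h.hB b hb).1
  have hv : f c ∈ A := Multiset.mem_map_of_mem f (Multiset.mem_cons_self c B)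
  obtain ⟨t', ht'⟩ := exists_optNet (fun z hz => (hA1 z hz).le) hv
  set T0 : Tr ℂ := Tr.node c (Tr.leaf c) T with hT0
  have hmin : len ((T0.map f).edges (f c)) ≤ len (t'.edges (f c)) := by
    have e1 := Tr.len_map f.symm.isometry t' (f c)
    rw [f.symm_apply_apply] at e1
    have e2 : (t'.map f.symm).leaves = c ::ₘ B := by
      rw [Tr.leaves_map, ht'.leaves]
      change Multiset.map f.symm (Multiset.map f (c ::ₘ B)) = _
      rw [Multiset.map_map]
      simp
    have n := (t'.map f.symm).net c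
    rw [e2, e1] at n
    have l1 := h.H1 c hcb _ (n.erase h.ne)
    rw [Tr.len_map f.isometry]
    simp only [hT0, Tr.edges, len_cons, len_add, len_singleton, dist_self]
    linarith
  have ht : OptNet A (f c) (T0.map f) := by
    refine ⟨hv, ht'.hA, ?_, ?_, fun S' h1 h2 h3 =>
      (ENNReal.ofReal_le_ofReal hmin).trans (ht'.opt S' h1 h2 h3)⟩
    · rw [Tr.leaves_map]
      change Multiset.map f ({c} + T.leaves) = Multiset.map f (c ::ₘ B)
      rw [t1, Multiset.singleton_add]
    · refine Tr.inK_map (K := closedBall 0 1) (fun z hz => by simpa using hz) T0 ?_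
      exact ⟨by simp [h.hc], trivial, T.inK_mono ball_subset_closedBall t2⟩
  unfold steinerBallBranching
  refine le_iSup_of_le (A : Set (EuclideanSpace ℝ (Fin 2)))
    (le_iSup_of_le (car ((T0.map f).edges (f c)))
    (le_iSup_of_le 0 (le_iSup_of_le 1 (le_iSup_of_le A.finite_toSet.isCompact
    (le_iSup_of_le ht.isSteiner (le_iSup_of_le one_pos (le_iSup_of_le ?_ ?_)))))))
  · rw [eq_empty_iff_forall_notMem]
    rintro z ⟨hz, hb⟩
    have := hA1 z hz
    simp only [mem_ball, dist_zero_right] at hb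
    linarith
  · have h1 : (f '' (P : Set ℂ)).encard = k := by
      rw [f.injective.injOn.encard_image, encard_coe_eq_coe_finsetCard, t4]
    rw [← h1]
    apply encard_le_encard
    rintro _ ⟨p, hp, rfl⟩
    have h2 : ‖f p‖ < 1 := by simpa using T.mem_of_hasNode t2 (t5 p hp).1
    have h3 : f p ∉ A := fun hz => by linarith [hA1 _ hz]
    exact ⟨by simpa using h2, ht.branching h3
      (T0.hasNode_map f (Or.inr (Or.inr (t5 p hp).1)))⟩

theorem steinerBallBranching_all {d : ℕ} (hd : 2 ≤ d) : steinerBallBranching d = ⊤ := by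
  rcases hd.eq_or_lt with rfl | hd
  · exact ENat.eq_top_iff_forall_ge.2 nat_le_steinerBallBranching_two
  · exact steinerBallBranching_high hd

end Pool.Agent.Lib.MP_8790b5_co
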